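import Pool.Agent.Helper67.NW.Derand
import Pool.Agent.Helper67.PHP.Patch

/-! The hierarchy with advice is closed under majority votes over advice strings. -/

set_option autoImplicit false

namespace Pool.Agent.Helper67.NW

open Pool.Agent.NPC Pool.Agent.H622R2 Pool.Agent.H620R2.Gauge
open Pool.Agent.Helper67.PHP

theorem length_filter_range (n : ℕ) (p : ℕ → Bool) :
    ((List.range n).filter p).length = ((Finset.range n).filter (fun i => p i = true)).card := by
  rw [← List.countP_eq_length_filter]
  simp only [Finset.card_def, Finset.filter_val, Finset.range_val, Multiset.range]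
  rw [Multiset.filter_coe, Multiset.coe_card, ← List.countP_eq_length_filter]
  simp

/-- the number of the ones -/
def cnt (w : List Bool) : ℕ := ((List.range w.length).filter (fun i => w.getD i false)).length

theorem poly_cnt {α : Type} [TEnc α] {w : α → List Bool} (hw : Poly w) :
    Poly (fun a => cnt (w a)) := by
  unfold cnt
  refine Poly.length (Poly.filter (p := fun a i => (w a).getD i false)
    (UPoly.range (UPoly.length hw)) ?_)
  exact Poly.getD (hw.comp (Poly.fst Poly.id)) (Poly.snd Poly.id) (NPC.Poly.const _)

/-- the list of the advice strings -/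
def Lam (g : List Bool) : List (List Bool) := (unbits (List (List Bool)) g).getD []

theorem poly_Lam {α : Type} [TEnc α] {g : α → List Bool} (hg : Poly g) :
    Poly (fun a => Lam (g a)) := Poly.optGetD (poly_unbits.comp hg) (NPC.Poly.const _)

/-- The vote. -/
def Vote (Q : Set (List Bool)) (g x : List Bool) : Prop :=
  ∃ w : List Bool, w.length ≤ (Lam g).length ∧ ((Lam g).length < 2 * cnt w ∧
    ∀ v : List Bool, v.length ≤ (Lam g).length → (w.getD v.length false = true →
      pairBits ((Lam g).getD v.length []) x ∈ Q))

theorem ph_vote {A : Oracle} {Q : Set (List Bool)} (hQ : IsPH A Q) :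
    PHt A (fun z : List Bool => Vote Q (unpair z).2 (unpair z).1) := by
  have hz : Poly (fun v : List Bool × List Bool × List Bool => v.2.2) :=
    Poly.snd (Poly.snd Poly.id)
  have hw : Poly (fun v : List Bool × List Bool × List Bool => v.2.1) :=
    Poly.fst (Poly.snd Poly.id)
  have hv : Poly (fun v : List Bool × List Bool × List Bool => v.1) := Poly.fst Poly.id
  have hx := Poly.fst (poly_unpair.comp hz)
  have hg := Poly.snd (poly_unpair.comp hz)
  have h1 := (PHt.ofPoly (A := A) (Poly.getD hw (Poly.length hv) (NPC.Poly.const false))).imp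
    ((PHt.of_isPH hQ).pre (poly_pairBits (Poly.getD (poly_Lam hg) (Poly.length hv)
      (NPC.Poly.const [])) hx))
  have k1 : Poly (fun v : List Bool × List Bool => Lam (unpair v.2).2) :=
    poly_Lam (Poly.snd (poly_unpair.comp (Poly.snd Poly.id)))
  have k2 : Poly (fun z : List Bool => Lam (unpair z).2) := poly_Lam (Poly.snd poly_unpair)
  have h2 := h1.all (b := fun v => (Lam (unpair v.2).2).length) (UPoly.length k1)
  have h3 : PHt A (fun v : List Bool × List Bool =>
      (Lam (unpair v.2).2).length < 2 * cnt v.1) :=
    (PHt.ofPoly (Poly.decide_lt (Poly.length k1) (Poly.mul (NPC.Poly.const 2)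
      (poly_cnt (Poly.fst Poly.id))))).congr fun v => by simp
  exact (h3.and h2).ex (b := fun z => (Lam (unpair z).2).length) (UPoly.length k2)

open Classical in
theorem vote_iff {Q : Set (List Bool)} {Λ : List (List Bool)} {x : List Bool} {c : ℕ}
    (hc : Λ.length = 2 * c) {P : Prop}
    (h : ((Finset.range (2 * c)).filter (fun i => ¬ (pairBits (Λ.getD i []) x ∈ Q ↔ P))).card < c) :
    Vote Q (bits Λ) x ↔ P := by
  have hL : Lam (bits Λ) = Λ := by
    unfold Lam
    rw [unbits_bits]
    rfl
  unfold Vote
  rw [hL]
  constructor
  · rintro ⟨w, hw, hcw, hv⟩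
    by_contra hP
    have h1 : cnt w ≤ ((Finset.range (2 * c)).filter
        (fun i => ¬ (pairBits (Λ.getD i []) x ∈ Q ↔ P))).card := by
      unfold cnt
      rw [length_filter_range]
      apply Finset.card_le_card
      intro i hi
      rw [Finset.mem_filter, Finset.mem_range] at hi ⊢
      refine ⟨by omega, ?_⟩
      have h2 := hv (List.replicate i false) (by rw [List.length_replicate]; omega)
      rw [List.length_replicate] at h2
      have h3 := h2 hi.2
      exact fun h4 => hP (h4.1 h3)
    omega
  · intro hP
    refine ⟨(List.range Λ.length).map (fun i => decide (pairBits (Λ.getD i []) x ∈ Q)),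
      by simp, ?_, ?_⟩
    · unfold cnt
      rw [length_filter_range, List.length_map, List.length_range, hc]
      have h1 := Finset.card_filter_add_card_filter_not (s := Finset.range (2 * c))
        (fun i => ¬ (pairBits (Λ.getD i []) x ∈ Q ↔ P))
      rw [Finset.card_range] at h1
      have h2 : ((Finset.range (2 * c)).filter (fun i => ¬ ¬ (pairBits (Λ.getD i []) x ∈ Q ↔
          P))).card ≤ ((Finset.range (2 * c)).filter (fun i => ((List.range (2 * c)).map
          (fun i => decide (pairBits (Λ.getD i []) x ∈ Q))).getD i false = true)).card := by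
        apply Finset.card_le_card
        intro i hi
        rw [Finset.mem_filter, Finset.mem_range] at hi ⊢
        refine ⟨hi.1, ?_⟩
        have h3 := hi.2
        rw [not_not] at h3
        have h4 := h3.2 hP
        rw [List.getD_eq_getElem?_getD, List.getElem?_map, List.getElem?_range hi.1]
        rw [List.getD_eq_getElem?_getD] at h4
        simpa using h4
      omega
    · intro v _ hvw
      rw [List.getD_eq_getElem?_getD, List.getElem?_map] at hvw
      rcases lt_or_ge v.length Λ.length with h1 | h1
      · rw [List.getElem?_range h1] at hvw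
        simpa using hvw
      · rw [List.getElem?_eq_none (by simpa using h1)] at hvw
        simp at hvw

open Classical in
theorem phpoly_of_majority {A : Oracle} {Q : Set (List Bool)} (hQ : IsPH A Q)
    (L : Set (List Bool)) (τ : ℕ → List (List Bool)) (b : Polynomial ℕ)
    (hlen : ∀ n, (τ n).length = 2 * (n + 1)) (hb : ∀ n, ∀ s ∈ τ n, s.length ≤ b.eval n)
    (h : ∀ x : List Bool, ((Finset.range (2 * (x.length + 1))).filter
      (fun i => ¬ (pairBits ((τ x.length).getD i []) x ∈ Q ↔ x ∈ L))).card < x.length + 1) :
    IsPHpoly A L := by
  refine ⟨_, fun n => bits (τ n), (Polynomial.C 4 * b + Polynomial.C 2) *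
    (Polynomial.C 2 * Polynomial.X + Polynomial.C 2) + Polynomial.C 1, (ph_vote hQ).isPH,
    fun n => ?_, fun x => ?_⟩
  · rw [bits_length]
    have key : ∀ (l : List (List Bool)) (c : ℕ), (∀ q ∈ l, q.length ≤ c) →
        sz l ≤ (4 * c + 2) * l.length + 1 := by
      intro l c
      induction l with
      | nil => intro _; simp
      | cons q l ih =>
        intro h
        have h1 := ih fun r hr => h r (List.mem_cons_of_mem _ hr)
        have h2 := sz_listBool_le q
        have h3 := h q (List.mem_cons_self ..)
        rw [sz_list_cons, List.length_cons, mul_add, mul_one]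
        omega
    have h1 := key (τ n) _ (hb n)
    rw [hlen n] at h1
    simp only [Polynomial.eval_add, Polynomial.eval_mul, Polynomial.eval_C, Polynomial.eval_X]
    refine h1.trans (le_of_eq ?_)
    ring
  · simp only [Set.mem_ofPred_eq, unpair_pairBits]
    exact (vote_iff (hlen _) (h x)).symm

end Pool.Agent.Helper67.NW
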