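import Pool.Agent.Helper67.PHP.Tools

/-! Parities have small correlation with tests of bounded alternation. -/

set_option autoImplicit false

namespace Pool.Agent.Helper67.NW

open Pool.Agent.NPC Finset H568R2 Pool.Agent.H676 Pool.Agent.H620R2.Gauge
open Pool.Agent.Helper67.PHP

section

variable {I : Type*} [Fintype I] [DecidableEq I]

/-! ### Decision trees -/

theorem DTr.upd {t : ℕ} : ∀ {f : (I → Bool) → Bool} (i : I) (c : Bool), DTr t f →
    DTr t (fun a => f (Function.update a i c)) := by
  induction t with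
  | zero =>
    rintro f i c ⟨v, h⟩
    exact ⟨v, fun a => h _⟩
  | succ t ih =>
    intro f i c h
    rcases h with ⟨v, h⟩ | ⟨j, h⟩
    · exact Or.inl ⟨v, fun a => h _⟩
    · by_cases hj : j = i
      · subst hj
        exact (h c).succ
      · refine Or.inr ⟨j, fun b => ?_⟩
        have h1 := ih i c (h b)
        refine (congrArg (DTr t) (funext fun a => ?_)).mp h1
        show f (Function.update (Function.update a i c) j b) =
          f (Function.update (Function.update a j b) i c)
        rw [Function.update_comm (Ne.symm hj)]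

theorem DTr.bind {d e : ℕ} : ∀ {g : (I → Bool) → Bool} {f : Bool → (I → Bool) → Bool},
    DTr d g → (∀ b, DTr e (f b)) → DTr (d + e) (fun a => f (g a) a) := by
  induction d with
  | zero =>
    rintro g f ⟨c, hc⟩ hf
    rw [Nat.zero_add]
    refine (congrArg (DTr e) (funext fun a => ?_)).mp (hf c)
    rw [hc]
  | succ d ih =>
    intro g f hg hf
    rcases hg with ⟨c, hc⟩ | ⟨i, hi⟩
    · have h1 : DTr e (fun a => f (g a) a) := by
        refine (congrArg (DTr e) (funext fun a => ?_)).mp (hf c)
        rw [hc]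
      exact h1.mono (by omega)
    · have h2 : DTr (d + e + 1) (fun a => f (g a) a) :=
        Or.inr ⟨i, fun b => ih (hi b) fun c => DTr.upd i b (hf c)⟩
      have e1 : d + 1 + e = d + e + 1 := by ring
      rw [e1]
      exact h2

/-- every answer of the oracle is a shallow decision tree -/
theorem dtr_runD {d : ℕ} (M : Alg) (y : List Bool) (Φ : (I → Bool) → Oracle)
    (hΦ : ∀ q, DTr d (fun a => Φ a q)) : ∀ (n : ℕ) (acc : List Bool),
    DTr (n * d) (fun a : I → Bool => decide (M.run (Φ a) y n acc = some [true])) := by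
  intro n
  induction n with
  | zero =>
    intro acc
    rw [Nat.zero_mul]
    exact ⟨false, fun a => by simp [Alg.run]⟩
  | succ n ih =>
    intro acc
    rcases hq : M.D (pairBits y acc) with _ | ⟨c, q⟩
    · exact DTr.const ⟨false, fun a => by simp [Alg.run, hq]⟩
    · cases c with
      | true => exact DTr.const ⟨decide (q = [true]), fun a => by simp [Alg.run, hq]⟩
      | false =>
        have h1 := DTr.bind (hΦ q) (f := fun b a =>
          decide (M.run (Φ a) y n (acc ++ [b]) = some [true])) (fun b => ih (acc ++ [b]))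
        have e1 : d + n * d = (n + 1) * d := by ring
        rw [e1] at h1
        refine (congrArg (DTr _) (funext fun a => ?_)).mp h1
        simp only [Alg.run, hq]

theorem dtr_leafD {d : ℕ} (M : Alg) {Φ : (I → Bool) → Oracle}
    (hΦ : ∀ q, DTr d (fun a => Φ a q)) (y : List Bool) :
    DTr (M.p.eval y.length * d) (leafG M Φ y) := dtr_runD M y Φ hΦ _ []

/-- A Boolean combination of shallow decision trees. -/
theorem dtr_multi {κ : Type*} [DecidableEq κ] {t : ℕ} (g : κ → (I → Bool) → Bool) :
    ∀ (Z : Finset κ) (T : (κ → Bool) → Bool),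
    (∀ u v : κ → Bool, (∀ z ∈ Z, u z = v z) → T u = T v) → (∀ z ∈ Z, DTr t (g z)) →
    DTr (Z.card * t) (fun a => T (fun z => g z a)) := by
  intro Z
  induction Z using Finset.induction_on with
  | empty =>
    intro T hT _
    exact DTr.const ⟨T (fun _ => false), fun a => hT _ _ (by simp)⟩
  | insert z Z hz ih =>
    intro T hT hg
    rw [Finset.card_insert_of_notMem hz]
    have h1 := DTr.bind (hg z (Finset.mem_insert_self _ _)) (e := Z.card * t)
      (f := fun b a => T (Function.update (fun z => g z a) z b)) (fun b =>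
        ih (fun u => T (Function.update u z b)) (fun u v huv => hT _ _ (by
          intro w hw
          by_cases hwz : w = z
          · subst hwz
            simp
          · rw [Function.update_of_ne hwz, Function.update_of_ne hwz]
            exact huv w ((Finset.mem_insert.1 hw).resolve_left hwz)))
        (fun w hw => hg w (Finset.mem_insert_of_mem hw)))
    have e1 : t + Z.card * t = (Z.card + 1) * t := by ring
    rw [e1] at h1
    refine (congrArg (DTr _) (funext fun a => ?_)).mp h1
    congr 1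
    exact Function.update_eq_self z _

/-! ### Correlation -/

/-- A function of low degree after the restriction has no correlation with a parity with many
free variables. -/
theorem corr_zero (ρ : Restr I) (B : Finset I) (G : (I → Bool) → ℝ) (r : ℕ)
    (hG : Deg r (fun a => G (ov ρ a))) (hB : r < (B.filter (fun i => ρ i = none)).card) :
    Ex unif (fun a : I → Bool => sgb (par B (ov ρ a)) * G (ov ρ a)) = 0 := by
  set U := B.filter (fun i => ρ i = none) with hU
  have e3 : ∀ a : I → Bool, sgb (par B (ov ρ a)) * G (ov ρ a) =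
      (∏ i ∈ B.filter (fun i => ¬ ρ i = none), sgb ((ρ i).getD false)) *
      (G (ov ρ a) * ch (fun i => decide (i ∈ U)) a) := by
    intro a
    have e4 : ch (fun i => decide (i ∈ U)) a = ∏ i ∈ U, sgb (a i) := by
      unfold ch
      rw [← Finset.prod_subset (Finset.subset_univ U)]
      · refine Finset.prod_congr rfl fun i hi => ?_
        simp [hi, sgb]
      · intro i _ hi
        simp [hi]
    have e5 : sgb (par B (ov ρ a)) =
        (∏ i ∈ B.filter (fun i => ¬ ρ i = none), sgb ((ρ i).getD false)) *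
        ∏ i ∈ B.filter (fun i => ρ i = none), sgb (a i) := by
      rw [sgb_par, ← Finset.prod_filter_mul_prod_filter_not B (fun i => ρ i = none), mul_comm]
      congr 1
      · refine Finset.prod_congr rfl fun i hi => ?_
        have := (Finset.mem_filter.1 hi).2
        unfold ov
        cases h : ρ i with
        | none => exact absurd h this
        | some b => rfl
      · refine Finset.prod_congr rfl fun i hi => ?_
        unfold ov
        rw [(Finset.mem_filter.1 hi).2]
        rfl
    rw [e4, e5]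
    ring
  rw [funext e3, Ex_smul, Ex_unif]
  have hw : r < wt (fun i => decide (i ∈ U)) := by
    have h1 : (univ.filter (fun i => decide (i ∈ U) = true)) = U := by
      ext i; simp
    unfold wt
    rw [h1]
    exact hB
  have h0 := hG _ hw
  unfold co at h0
  rw [h0, mul_zero]

theorem Ex_abs_le {A : Type*} [Fintype A] {w : A → ℝ} (hw : ∀ a, 0 ≤ w a)
    (F : (I → A) → ℝ) : |Ex w F| ≤ Ex w (fun a => |F a|) := by
  unfold Ex
  refine (Finset.abs_sum_le_sum_abs _ _).trans (le_of_eq ?_)
  refine Finset.sum_congr rfl fun a _ => ?_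
  rw [abs_mul, abs_of_nonneg (Finset.prod_nonneg fun i _ => hw _)]

theorem abs_sgb (b : Bool) : |sgb b| = 1 := by cases b <;> norm_num [sgb]

theorem br_nonneg (f : (I → Bool) → Bool) (a : I → Bool) : 0 ≤ br f a := by
  unfold br; split_ifs <;> norm_num

theorem br_le_one (f : (I → Bool) → Bool) (a : I → Bool) : br f a ≤ 1 := by
  unfold br; split_ifs <;> norm_num

open Classical in
/-- The correlation of a parity with a Boolean combination of alternations. -/
theorem corr_bound {t : ℕ} (ht : 1 ≤ t) {q : ℝ} (h0 : 0 ≤ q) (h1 : q ≤ 1 / 3) (m : ℕ)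
    (F : List Bool → (I → Bool) → Bool) (k ℓ : ℕ)
    (hF : ∀ y : List Bool, y.length ≤ ℓ + k * (2 * m + 1) → DTr t (F y))
    (B : Finset I) (Z : Finset (List Bool)) (hZ : ∀ z ∈ Z, z.length ≤ ℓ)
    (T : (List Bool → Bool) → Bool)
    (hT : ∀ u v : List Bool → Bool, (∀ z ∈ Z, u z = v z) → T u = T v)
    (r s : ℕ) (hr : Z.card * t ≤ r) (hs : (r + 1) * s ≤ B.card) :
    |Ex unif (fun a : I → Bool => sgb (par B a) * br (fun a => T (fun z => QF m F k true z a)) a)| ≤
      k * 2 ^ (ℓ + k * (2 * m + 1) + 2) * (12 * t * q) ^ (t + 1) + (r + 1) * (1 - q ^ k) ^ s := by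
  have hq0 : 0 ≤ q ^ k := pow_nonneg h0 k
  have hq1 : q ^ k ≤ 1 := pow_le_one₀ h0 (by linarith)
  rw [← Ex_ov (q := q ^ k)]
  refine (Ex_abs_le (wq_nonneg hq0 hq1) _).trans ?_
  have hpt : ∀ ρ : Restr I, |Ex unif (fun a : I → Bool => sgb (par B (ov ρ a)) *
      br (fun a => T (fun z => QF m F k true z a)) (ov ρ a))| ≤
      (if ¬ ∀ y : List Bool, y.length ≤ ℓ → ∀ b, DTr t (rs (QF m F k b y) ρ) then (1 : ℝ) else 0) +
        (if (B.filter (fun i => ρ i = none)).card ≤ r then (1 : ℝ) else 0) := by
    intro ρ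
    have hle : |Ex unif (fun a : I → Bool => sgb (par B (ov ρ a)) *
        br (fun a => T (fun z => QF m F k true z a)) (ov ρ a))| ≤ 1 := by
      refine (Ex_abs_le unif_nonneg _).trans ?_
      calc _ ≤ Ex unif (fun _ : I → Bool => (1 : ℝ)) := by
            apply Ex_mono unif_nonneg
            intro a
            rw [abs_mul, abs_sgb, one_mul, abs_of_nonneg (br_nonneg _ _)]
            exact br_le_one _ _
        _ = 1 := Ex_const unif_sum 1
    have n1 : (0 : ℝ) ≤ (if ¬ ∀ y : List Bool, y.length ≤ ℓ → ∀ b, DTr t (rs (QF m F k b y) ρ)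
      then (1 : ℝ) else 0) := by split_ifs <;> norm_num
    have n2 : (0 : ℝ) ≤ (if (B.filter (fun i => ρ i = none)).card ≤ r then (1 : ℝ) else 0) := by
      split_ifs <;> norm_num
    by_cases hG : ∀ y : List Bool, y.length ≤ ℓ → ∀ b, DTr t (rs (QF m F k b y) ρ)
    · by_cases hst : (B.filter (fun i => ρ i = none)).card ≤ r
      · rw [if_pos hst]
        linarith
      · push Not at hst
        have hD : DTr r (fun a => T (fun z => QF m F k true z (ov ρ a))) :=
          (dtr_multi (fun z a => QF m F k true z (ov ρ a)) Z T hT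
            (fun z hz => hG z (hZ z hz) true)).mono hr
        have h2 := corr_zero ρ B (br (fun a => T (fun z => QF m F k true z a))) r
          (DTr.deg hD) hst
        rw [h2, abs_zero]
        linarith
    · rw [if_pos hG]
      linarith
  refine (Ex_mono (wq_nonneg hq0 hq1) hpt).trans ?_
  rw [Ex_add]
  exact add_le_add (switch_alt ht h0 h1 m F k ℓ hF) (few_stars hq0 hq1 B r s hs)

open Classical in
/-- The same with the parameters fixed. -/
theorem corr_bound' {t : ℕ} (ht : 1 ≤ t) (m : ℕ)
    (F : List Bool → (I → Bool) → Bool) (k ℓ : ℕ)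
    (hF : ∀ y : List Bool, y.length ≤ ℓ + k * (2 * m + 1) → DTr t (F y))
    (B : Finset I) (Z : Finset (List Bool)) (hZ : ∀ z ∈ Z, z.length ≤ ℓ)
    (T : (List Bool → Bool) → Bool)
    (hT : ∀ u v : List Bool → Bool, (∀ z ∈ Z, u z = v z) → T u = T v)
    (hs : (Z.card * t + 1) * ((24 * t) ^ k * t) ≤ B.card) (e : ℕ)
    (he1 : ℓ + k * (2 * m + 1) + 2 ≤ e) (he2 : Z.card * t + 1 ≤ 2 ^ e) :
    |Ex unif (fun a : I → Bool => sgb (par B a) * br (fun a => T (fun z => QF m F k true z a)) a)| ≤
      ((k + 1) * 2 ^ e) * (1 / 2) ^ t := by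
  have htR : (1 : ℝ) ≤ (t : ℝ) := by exact_mod_cast ht
  set q : ℝ := 1 / (24 * t) with hq
  have hq0 : 0 ≤ q := by positivity
  have hq1 : q ≤ 1 / 3 := by
    rw [hq, div_le_div_iff₀ (by positivity) (by norm_num)]
    linarith
  have hqk : q ^ k ≤ 1 := pow_le_one₀ hq0 (by linarith)
  have h1 := corr_bound ht hq0 hq1 m F k ℓ hF B Z hZ T hT (Z.card * t) ((24 * t) ^ k * t)
    le_rfl hs
  refine h1.trans ?_
  have hqt : 12 * (t : ℝ) * q = 1 / 2 := by
    rw [hq]; field_simp; norm_num
  rw [hqt]
  have e1 : (1 - q ^ k) ^ ((24 * t) ^ k * t) ≤ (1 / 2 : ℝ) ^ t := by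
    rw [pow_mul]
    refine pow_le_pow_left₀ (pow_nonneg (by linarith) _) ?_ t
    have h2 : (1 - q ^ k) ≤ Real.exp (-(q ^ k)) := by
      have := Real.add_one_le_exp (-(q ^ k))
      linarith
    have h3 : (1 - q ^ k) ^ ((24 * t) ^ k) ≤ Real.exp (-(q ^ k)) ^ ((24 * t) ^ k) :=
      pow_le_pow_left₀ (by linarith) h2 _
    refine h3.trans ?_
    rw [← Real.exp_nat_mul]
    have h4 : (((24 * t) ^ k : ℕ) : ℝ) * -(q ^ k) = -1 := by
      rw [hq]
      push_cast
      rw [mul_neg, ← mul_pow]
      have : (24 * (t : ℝ)) * (1 / (24 * t)) = 1 := by field_simp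
      rw [this, one_pow]
    rw [h4]
    have h5 := Real.exp_one_gt_d9
    rw [Real.exp_neg, one_div]
    exact inv_anti₀ (by norm_num) (by linarith)
  have e2 : (k : ℝ) * 2 ^ (ℓ + k * (2 * m + 1) + 2) * (1 / 2) ^ (t + 1) ≤
      k * 2 ^ e * (1 / 2) ^ t := by
    have h2 : (2 : ℝ) ^ (ℓ + k * (2 * m + 1) + 2) ≤ 2 ^ e := pow_le_pow_right₀ (by norm_num) he1
    have h3 : (1 / 2 : ℝ) ^ (t + 1) ≤ (1 / 2) ^ t :=
      pow_le_pow_of_le_one (by norm_num) (by norm_num) (Nat.le_succ t)
    have h4 : (0 : ℝ) ≤ k * 2 ^ e := by positivity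
    calc (k : ℝ) * 2 ^ (ℓ + k * (2 * m + 1) + 2) * (1 / 2) ^ (t + 1) ≤
        k * 2 ^ e * (1 / 2) ^ (t + 1) := by
          apply mul_le_mul_of_nonneg_right _ (by positivity)
          exact mul_le_mul_of_nonneg_left h2 (by positivity)
      _ ≤ _ := mul_le_mul_of_nonneg_left h3 h4
  have e3 : (((Z.card * t : ℕ) : ℝ) + 1) * (1 - q ^ k) ^ ((24 * t) ^ k * t) ≤
      2 ^ e * (1 / 2) ^ t := by
    have h2 : (((Z.card * t : ℕ) : ℝ) + 1) ≤ 2 ^ e := by exact_mod_cast he2
    exact mul_le_mul h2 e1 (pow_nonneg (by linarith) _) (by positivity)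
  have e5 : ((k + 1) * 2 ^ e) * (1 / 2 : ℝ) ^ t =
      k * 2 ^ e * (1 / 2) ^ t + 2 ^ e * (1 / 2) ^ t := by ring
  rw [e5]
  exact add_le_add e2 e3

end

end Pool.Agent.Helper67.NW
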