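import Pool.Agent.Helper67.NW.Design
import Pool.Agent.H620R2.Gauge.Event

/-! A few seeds suffice. -/

set_option autoImplicit false

namespace Pool.Agent.Helper67.NW

open Pool.Agent.NPC Finset H568R2 Pool.Agent.H676 Pool.Agent.H620R2.Gauge
open Pool.Agent.Helper67.PHP

section

variable {I : Type*} [Fintype I] [DecidableEq I]

open Classical in
/-- all answers in `X` are right -/
noncomputable def rt {κ : Type*} (L : κ → Bool) (X : Finset κ) (u : κ → Bool) : Bool :=
  decide (∀ z ∈ X, u z = L z)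

omit [Fintype I] [DecidableEq I] in
theorem rt_iff {κ : Type*} (L : κ → Bool) (X : Finset κ) (u : κ → Bool) :
    rt L X u = true ↔ ∀ z ∈ X, u z = L z := by
  unfold rt
  rw [decide_eq_true_iff]

theorem rt_congr {κ : Type*} (L : κ → Bool) (X : Finset κ) (u v : κ → Bool)
    (h : ∀ z ∈ X, u z = v z) : rt L X u = rt L X v := by
  rw [Bool.eq_iff_iff, rt_iff, rt_iff]
  exact forall_congr' fun z => forall_congr' fun hz => by rw [h z hz]

theorem greedy {κ : Type*} [DecidableEq κ] (U : Finset κ) (g : κ → (I → Bool) → Bool)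
    (L : κ → Bool) (d : ℕ)
    (h : (1 / 2 : ℝ) ^ d ≤ Ex unif (br (fun a : I → Bool => rt L U (fun z => g z a)))) :
    ∃ X ⊆ U, X.card ≤ 11 * d ∧
      (1 / 2 : ℝ) ^ d ≤ Ex unif (br (fun a : I → Bool => rt L X (fun z => g z a))) ∧
      ∀ x ∈ U, 15 / 16 * Ex unif (br (fun a : I → Bool => rt L X (fun z => g z a))) ≤
        Ex unif (br (fun a : I → Bool => rt L (insert x X) (fun z => g z a))) := by
  let P : Finset κ → ℝ := fun X => Ex unif (br (fun a : I → Bool => rt L X (fun z => g z a)))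
  obtain ⟨X, hX, hmin⟩ := Finset.exists_min_image U.powerset
    (fun X => P X * (16 / 15) ^ X.card) ⟨∅, Finset.empty_mem_powerset U⟩
  have hXU := Finset.mem_powerset.1 hX
  have hmono : ∀ X ⊆ U, (1 / 2 : ℝ) ^ d ≤ P X := by
    intro X hX
    refine h.trans (Ex_mono unif_nonneg fun a => ?_)
    unfold br
    by_cases h1 : rt L U (fun z => g z a) = true
    · have h2 : rt L X (fun z => g z a) = true := by
        rw [rt_iff] at h1 ⊢
        exact fun z hz => h1 z (hX hz)
      rw [if_pos h1, if_pos h2]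
    · rw [if_neg h1]
      split_ifs <;> norm_num
  have hP0 : ∀ X ⊆ U, 0 < P X := fun X hX => lt_of_lt_of_le (by positivity) (hmono X hX)
  refine ⟨X, hXU, ?_, hmono X hXU, ?_⟩
  · have h0 : P ∅ = 1 := by
      show Ex unif (br (fun a : I → Bool => rt L ∅ (fun z => g z a))) = 1
      have e : br (fun a : I → Bool => rt L ∅ (fun z => g z a)) = fun _ => (1 : ℝ) := by
        funext a
        unfold br
        rw [if_pos ((rt_iff _ _ _).2 (by simp))]
      rw [e]
      exact Ex_const unif_sum 1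
    have h1 := hmin ∅ (Finset.empty_mem_powerset U)
    rw [h0, Finset.card_empty, pow_zero, mul_one] at h1
    have h2 := hmono X hXU
    by_contra hc
    push Not at hc
    have h3 : ((16 / 15 : ℝ)) ^ (11 * d + 1) ≤ (16 / 15) ^ X.card :=
      pow_le_pow_right₀ (by norm_num) hc
    have h4 : (2 : ℝ) ^ d ≤ (16 / 15) ^ (11 * d) := by
      rw [pow_mul]
      exact pow_le_pow_left₀ (by norm_num) (by norm_num) d
    have h5 : (16 / 15 : ℝ) ^ (11 * d + 1) = (16 / 15) ^ (11 * d) * (16 / 15) := pow_succ _ _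
    have h6 : (0 : ℝ) < 2 ^ d := by positivity
    have h7 : (2 : ℝ) ^ d < (16 / 15) ^ X.card := by
      have : (2 : ℝ) ^ d < (16 / 15) ^ (11 * d + 1) := by
        rw [h5]
        nlinarith
      linarith
    have h8 : (1 / 2 : ℝ) ^ d * 2 ^ d = 1 := by
      rw [← mul_pow]
      norm_num
    have h9 : (1 : ℝ) < P X * (16 / 15) ^ X.card := by
      calc (1 : ℝ) = (1 / 2 : ℝ) ^ d * 2 ^ d := h8.symm
        _ < (1 / 2 : ℝ) ^ d * (16 / 15) ^ X.card := by
          apply mul_lt_mul_of_pos_left h7 (by positivity)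
        _ ≤ P X * (16 / 15) ^ X.card := mul_le_mul_of_nonneg_right h2 (by positivity)
    linarith
  · intro x hx
    change 15 / 16 * P X ≤ P (insert x X)
    by_cases hxX : x ∈ X
    · rw [Finset.insert_eq_of_mem hxX]
      have := hP0 X hXU
      linarith
    · have h1 := hmin (insert x X) (Finset.mem_powerset.2 (Finset.insert_subset hx hXU))
      rw [Finset.card_insert_of_notMem hxX, pow_succ] at h1
      have h2 : (0 : ℝ) < (16 / 15) ^ X.card := by positivity
      have h3 : P X * (16 / 15) ^ X.card ≤ (P (insert x X) * (16 / 15)) * (16 / 15) ^ X.card := by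
        refine h1.trans (le_of_eq ?_)
        ring
      have h4 := le_of_mul_le_mul_right h3 h2
      linarith

end

/-! ### Majority -/

open Classical in
theorem majority {Y κ : Type*} [Fintype Y] (S : Finset Y) (hS : S.Nonempty) (U : Finset κ)
    (n : ℕ) (hU : U.card ≤ 2 ^ n) (bad : κ → Y → Prop)
    (hb : ∀ x ∈ U, 8 * (S.filter (bad x)).card ≤ S.card) :
    ∃ ω : Fin (2 * (n + 1)) → Y, ∀ x ∈ U,
      (univ.filter (fun i => bad x (ω i))).card < n + 1 := by
  by_contra hcon
  push Not at hcon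
  let w : Y → ℝ := fun y => if y ∈ S then 1 / S.card else 0
  have hSc : (0 : ℝ) < S.card := by exact_mod_cast hS.card_pos
  have hw0 : ∀ y, 0 ≤ w y := by
    intro y
    show 0 ≤ if y ∈ S then (1 / S.card : ℝ) else 0
    split_ifs <;> positivity
  have hw1 : ∑ y, w y = 1 := by
    show ∑ y, (if y ∈ S then (1 / S.card : ℝ) else 0) = 1
    rw [Finset.sum_ite_mem, Finset.univ_inter, Finset.sum_const, nsmul_eq_mul]
    field_simp
  have hwb : ∀ x ∈ U, ∑ y ∈ univ.filter (bad x), w y ≤ 1 / 8 := by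
    intro x hx
    have e : ∑ y ∈ univ.filter (bad x), w y = ((S.filter (bad x)).card : ℝ) * (1 / S.card) := by
      show ∑ y ∈ univ.filter (bad x), (if y ∈ S then (1 / S.card : ℝ) else 0) = _
      rw [← Finset.sum_filter, Finset.filter_filter, Finset.sum_const, nsmul_eq_mul]
      congr 3
      ext y
      simp [and_comm]
    rw [e, mul_one_div, div_le_div_iff₀ hSc (by norm_num)]
    have := hb x hx
    have h2 : (8 : ℝ) * (S.filter (bad x)).card ≤ S.card := by exact_mod_cast this
    linarith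
  have h1 : (1 : ℝ) ≤ ∑ x ∈ U, ∑ Z ∈ powersetCard (n + 1) (univ : Finset (Fin (2 * (n + 1)))),
      Ex w (fun ω : Fin (2 * (n + 1)) → Y => if ∀ i ∈ Z, bad x (ω i) then (1 : ℝ) else 0) := by
    calc (1 : ℝ) = Ex w (fun _ : Fin (2 * (n + 1)) → Y => (1 : ℝ)) := (Ex_const hw1 1).symm
      _ ≤ Ex w (fun ω : Fin (2 * (n + 1)) → Y => ∑ x ∈ U,
          ∑ Z ∈ powersetCard (n + 1) (univ : Finset (Fin (2 * (n + 1)))),
          if ∀ i ∈ Z, bad x (ω i) then (1 : ℝ) else 0) := by
        apply Ex_mono hw0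
        intro ω
        obtain ⟨x, hx, hx2⟩ := hcon ω
        obtain ⟨Z, hZ1, hZ2⟩ := Finset.exists_subset_card_eq hx2
        refine le_trans ?_ (Finset.single_le_sum (f := fun x =>
          ∑ Z ∈ powersetCard (n + 1) (univ : Finset (Fin (2 * (n + 1)))),
          if ∀ i ∈ Z, bad x (ω i) then (1 : ℝ) else 0)
          (fun x _ => Finset.sum_nonneg fun Z _ => by split_ifs <;> norm_num) hx)
        refine le_trans ?_ (Finset.single_le_sum (f := fun Z : Finset (Fin (2 * (n + 1))) =>
          if ∀ i ∈ Z, bad x (ω i) then (1 : ℝ) else 0)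
          (fun Z _ => by split_ifs <;> norm_num)
          (Finset.mem_powersetCard.2 ⟨Finset.subset_univ Z, hZ2⟩))
        rw [if_pos fun i hi => (Finset.mem_filter.1 (hZ1 hi)).2]
      _ = _ := by
        rw [Ex_sum]
        refine Finset.sum_congr rfl fun x _ => ?_
        rw [Ex_sum]
  have h2 : ∀ x ∈ U, ∀ Z ∈ powersetCard (n + 1) (univ : Finset (Fin (2 * (n + 1)))),
      Ex w (fun ω : Fin (2 * (n + 1)) → Y => if ∀ i ∈ Z, bad x (ω i) then (1 : ℝ) else 0) ≤
      (1 / 8) ^ (n + 1) := by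
    intro x hx Z hZ
    have e := Ex_indep (I := Fin (2 * (n + 1))) hw1 (bad x) Z (fun _ => (1 : ℝ))
      (fun _ _ _ _ => rfl)
    simp only [one_mul] at e
    refine le_trans (le_of_eq (Eq.trans ?_ e)) ?_
    · congr 1
      funext ω
      congr
    rw [Ex_const hw1, mul_one, (Finset.mem_powersetCard.1 hZ).2]
    exact pow_le_pow_left₀ (Finset.sum_nonneg fun y _ => hw0 y) (hwb x hx) _
  have h3 := Finset.sum_le_sum fun x hx => Finset.sum_le_sum (h2 x hx)
  have h4 := h1.trans h3
  simp only [Finset.sum_const, nsmul_eq_mul] at h4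
  rw [Finset.card_powersetCard, Finset.card_univ, Fintype.card_fin] at h4
  have h5 : ((Nat.choose (2 * (n + 1)) (n + 1) : ℕ) : ℝ) ≤ 4 ^ (n + 1) := by
    have : Nat.choose (2 * (n + 1)) (n + 1) ≤ 2 ^ (2 * (n + 1)) := Nat.choose_le_two_pow _ _
    rw [pow_mul] at this
    exact_mod_cast this
  have h6 : (U.card : ℝ) ≤ 2 ^ n := by exact_mod_cast hU
  have h7 : (U.card : ℝ) * (((Nat.choose (2 * (n + 1)) (n + 1) : ℕ) : ℝ) * (1 / 8) ^ (n + 1)) ≤
      2 ^ n * (4 ^ (n + 1) * (1 / 8) ^ (n + 1)) := by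
    apply mul_le_mul h6 _ (by positivity) (by positivity)
    exact mul_le_mul_of_nonneg_right h5 (by positivity)
  have h8 : (2 : ℝ) ^ n * (4 ^ (n + 1) * (1 / 8) ^ (n + 1)) = 1 / 2 := by
    rw [← mul_pow]
    norm_num
    rw [pow_succ, ← mul_assoc, ← mul_pow]
    norm_num
  linarith

/-! ### The seeds -/

open Classical in
theorem exists_seeds {N : ℕ} {J : Type*} [Fintype J] [DecidableEq J] (S : Fin N → Finset J) (d' : ℕ)
    (hSd : ∀ i j, i ≠ j → (S j ∩ S i).card ≤ d') (M : Alg) (m k n t : ℕ) (ht : 1 ≤ t)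
    (hMt : M.p.eval (n + k * (2 * m + 1)) * d' ≤ t) (L : List Bool → Bool) (d : ℕ)
    (h : (1 / 2 : ℝ) ^ d ≤ Ex unif (br (fun a : Fin N → Bool => rt L (strsOf n)
      (fun z => QF m (leafG M (fun a => orc N a)) k true z a))))
    (hs : ∀ i, ((11 * d + 1) * t + 1) * ((24 * t) ^ k * t) ≤ (S i).card) (e : ℕ)
    (he1 : n + k * (2 * m + 1) + 2 ≤ e) (he2 : (11 * d + 1) * t + 1 ≤ 2 ^ e)
    (hε : (N : ℝ) * (((k + 1) * 2 ^ e) * (1 / 2) ^ t) ≤ (1 / 2) ^ (d + 5)) :
    ∃ ω : Fin (2 * (n + 1)) → (J → Bool), ∀ x ∈ strsOf n,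
      (univ.filter (fun i => QF m (leafG M (fun a => orc N a)) k true x (gen S (ω i)) ≠
        L x)).card < n + 1 := by
  set g : List Bool → (Fin N → Bool) → Bool := fun z a =>
    QF m (leafG M (fun a => orc N a)) k true z a with hg
  obtain ⟨X, hXU, hXc, hX1, hX2⟩ := greedy (strsOf n) g L d h
  have hlen : ∀ z ∈ strsOf n, z.length ≤ n := by
    intro z hz
    obtain ⟨j, _, hj⟩ := Finset.mem_image.1 hz
    rw [← hj, length_bitsOf]
  have F : ∀ Z ⊆ strsOf n, Z.card ≤ 11 * d + 1 →
      |Ex unif (fun y : J → Bool => br (fun a => rt L Z (fun z => g z a)) (gen S y)) -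
        Ex unif (br (fun a : Fin N → Bool => rt L Z (fun z => g z a)))| ≤ (1 / 2) ^ (d + 5) := by
    intro Z hZ hZc
    have hZt : Z.card * t ≤ (11 * d + 1) * t := Nat.mul_le_mul_right t hZc
    refine (fools S d' hSd M m k n t ht hMt Z (fun z hz => hlen z (hZ hz)) (rt L Z)
      (rt_congr L Z) (fun i => ?_) e he1 (by omega)).trans hε
    refine le_trans ?_ (hs i)
    exact Nat.mul_le_mul_right _ (by omega)
  let Y : Finset (J → Bool) := univ.filter (fun y => rt L X (fun z => g z (gen S y)) = true)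
  have hcard : ∀ Z : Finset (List Bool),
      ((univ.filter (fun y : J → Bool => rt L Z (fun z => g z (gen S y)) = true)).card : ℝ) =
      2 ^ Fintype.card J *
        Ex unif (fun y : J → Bool => br (fun a => rt L Z (fun z => g z a)) (gen S y)) := by
    intro Z
    rw [Ex_unif]
    unfold av br
    rw [Finset.sum_boole]
    field_simp
  have hF := F X hXU (by omega)
  have hpX : (0 : ℝ) < (1 / 2) ^ d := by positivity
  have he5 : (1 / 2 : ℝ) ^ (d + 5) = (1 / 2) ^ d / 32 := by
    rw [pow_add]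
    norm_num
    ring
  rw [he5] at hF
  have hYpos : (0 : ℝ) < Ex unif (fun y : J → Bool => br (fun a => rt L X (fun z => g z a))
      (gen S y)) := by
    have := abs_le.1 hF
    linarith
  have hY : Y.Nonempty := by
    rw [← Finset.card_pos]
    have h1 := hcard X
    have h2 : (0 : ℝ) < (Y.card : ℝ) := by
      show (0 : ℝ) < ((univ.filter (fun y : J → Bool =>
        rt L X (fun z => g z (gen S y)) = true)).card : ℝ)
      rw [h1]
      positivity
    exact_mod_cast h2
  have hcs : (strsOf n).card ≤ 2 ^ n := card_strsOf n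
  have hmaj : ∀ x ∈ strsOf n, 8 * (Y.filter (fun y => g x (gen S y) ≠ L x)).card ≤ Y.card := ?_
  · obtain ⟨ω, hω⟩ := majority Y hY (strsOf n) n hcs (fun x y => g x (gen S y) ≠ L x) (by
      intro x hx
      convert hmaj x hx)
    exact ⟨ω, fun x hx => by convert hω x hx⟩
  intro x hx
  have hFx := F (insert x X) (Finset.insert_subset hx hXU)
    ((Finset.card_insert_le _ _).trans (by omega))
  rw [he5] at hFx
  have h1 : ((Y.filter (fun y => g x (gen S y) ≠ L x)).card : ℝ) + ((univ.filter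
      (fun y : J → Bool => rt L (insert x X) (fun z => g z (gen S y)) = true)).card : ℝ) =
      Y.card := by
    rw [← Nat.cast_add]
    congr 1
    rw [← Finset.card_filter_add_card_filter_not (s := Y) (fun y => g x (gen S y) ≠ L x)]
    congr 2
    ext y
    simp only [Y, Finset.mem_filter, Finset.mem_univ, true_and, rt_iff, Finset.mem_insert,
      forall_eq_or_imp, not_not]
    tauto
  have h2 := hcard X
  have h3 := hcard (insert x X)
  have h4 := hX2 x hx
  have e1 := abs_le.1 hF
  have e2 := abs_le.1 hFx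
  have h5 : (Y.card : ℝ) = 2 ^ Fintype.card J *
        Ex unif (fun y : J → Bool => br (fun a => rt L X (fun z => g z a)) (gen S y)) := h2
  have h6 : 7 * Ex unif (fun y : J → Bool => br (fun a => rt L X (fun z => g z a)) (gen S y)) ≤
      8 * Ex unif (fun y : J → Bool => br (fun a => rt L (insert x X) (fun z => g z a))
        (gen S y)) := by
    linarith
  have h7 : (0 : ℝ) < 2 ^ Fintype.card J := by positivity
  have h8 := mul_le_mul_of_nonneg_left h6 h7.le
  have h9 : (8 : ℝ) * ((Y.filter (fun y => g x (gen S y) ≠ L x)).card : ℝ) ≤ Y.card := by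
    nlinarith
  exact_mod_cast h9

end Pool.Agent.Helper67.NW
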