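import Pool.Agent.Helper67.NW.Hybrid

/-! The design: graphs of polynomials over a prime field. -/

set_option autoImplicit false

namespace Pool.Agent.Helper67.NW

open Pool.Agent.NPC Finset H568R2 Pool.Agent.H676 Pool.Agent.H620R2.Gauge
open Pool.Agent.Helper67.PHP

/-- The value at `a` of the polynomial with the digits of `q` (followed by a digit one) as
coefficients, modulo `c + 1`. -/
def ev (c a : ℕ) (q : List Bool) : ℕ :=
  (q ++ [true]).foldr (fun b s => (b.toNat + a * s) % (c + 1)) 0

theorem ev_lt (c a : ℕ) (q : List Bool) : ev c a q < c + 1 := by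
  unfold ev
  cases q with
  | nil => exact Nat.mod_lt _ (Nat.succ_pos c)
  | cons b q => exact Nat.mod_lt _ (Nat.succ_pos c)

section

variable (P : ℕ) [hP : Fact P.Prime]

open Polynomial in
/-- The polynomial of a string. -/
noncomputable def pol : List Bool → Polynomial (ZMod P)
  | [] => 1
  | b :: q => C (b.toNat : ZMod P) + X * pol q

open Polynomial in
theorem divX_pol (b : Bool) (q : List Bool) : divX (pol P (b :: q)) = pol P q := by
  ext n
  rw [pol, coeff_divX, coeff_add, coeff_C_succ, coeff_X_mul, zero_add]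

open Polynomial in
theorem divX_pol_nil : divX (pol P []) = 0 := divX_one

open Polynomial in
theorem pol_ne_zero : ∀ q, pol P q ≠ 0
  | [] => one_ne_zero
  | b :: q => by
    intro h
    have h1 := congrArg divX h
    rw [divX_pol, divX_zero] at h1
    exact pol_ne_zero q h1

open Polynomial in
theorem pol_inj : ∀ q q' : List Bool, pol P q = pol P q' → q = q'
  | [], [], _ => rfl
  | [], b :: q, h => by
    have h1 := congrArg divX h
    rw [divX_pol, divX_pol_nil] at h1
    exact absurd h1.symm (pol_ne_zero P q)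
  | b :: q, [], h => by
    have h1 := congrArg divX h
    rw [divX_pol, divX_pol_nil] at h1
    exact absurd h1 (pol_ne_zero P q)
  | b :: q, b' :: q', h => by
    have h1 := congrArg divX h
    rw [divX_pol, divX_pol] at h1
    have h2 := pol_inj q q' h1
    subst h2
    have h3 := congrArg (fun p => coeff p 0) h
    simp only [pol, coeff_add, coeff_C_zero, mul_coeff_zero, coeff_X_zero, zero_mul,
      add_zero] at h3
    have h4 : b = b' := by
      cases b <;> cases b' <;> simp at h3 ⊢
    rw [h4]

open Polynomial in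
theorem natDegree_pol : ∀ q : List Bool, (pol P q).natDegree ≤ q.length
  | [] => by simp [pol]
  | b :: q => by
    rw [pol, List.length_cons]
    refine (natDegree_add_le _ _).trans (max_le ?_ ?_)
    · rw [natDegree_C]
      omega
    · refine natDegree_mul_le.trans ?_
      have := natDegree_pol q
      have h2 : (X : Polynomial (ZMod P)).natDegree ≤ 1 := natDegree_X_le
      omega

theorem eval_pol (a : ℕ) : ∀ q : List Bool,
    (((q ++ [true]).foldr (fun b s => (b.toNat + a * s) % P) 0 : ℕ) : ZMod P) =
      (pol P q).eval (a : ZMod P)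
  | [] => by
    have h1 : 1 < P := hP.out.one_lt
    simp [pol]
  | b :: q => by
    have ih := eval_pol a q
    rw [List.cons_append, List.foldr_cons, pol]
    simp only [Polynomial.eval_add, Polynomial.eval_C, Polynomial.eval_mul, Polynomial.eval_X]
    rw [← ih, ZMod.natCast_mod]
    push_cast
    rfl

/-- Two different strings of length at most `D` have few common values. -/
theorem few_common {ls D : ℕ} (hls : ls ≤ P) {c : ℕ} (hc : c + 1 = P) {q q' : List Bool}
    (hne : q ≠ q') (hq : q.length ≤ D) (hq' : q'.length ≤ D) :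
    ((Finset.range ls).filter (fun a => ev c a q = ev c a q')).card ≤ D := by
  classical
  have hne' : pol P q - pol P q' ≠ 0 := by
    rw [sub_ne_zero]
    exact fun h => hne (pol_inj P q q' h)
  have h1 : ((Finset.range ls).filter (fun a => ev c a q = ev c a q')).card ≤
      (pol P q - pol P q').roots.toFinset.card := by
    apply Finset.card_le_card_of_injOn (fun a : ℕ => (a : ZMod P))
    · intro a ha
      rw [Finset.mem_coe, Finset.mem_filter] at ha
      rw [Finset.mem_coe, Multiset.mem_toFinset, Polynomial.mem_roots hne', Polynomial.IsRoot,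
        Polynomial.eval_sub, ← eval_pol, ← eval_pol, sub_eq_zero]
      have h2 := ha.2
      unfold ev at h2
      rw [hc] at h2
      rw [h2]
    · intro a ha b hb hab
      rw [Finset.mem_coe, Finset.mem_filter, Finset.mem_range] at ha hb
      have h3 : (a : ZMod P) = (b : ZMod P) := hab
      rw [ZMod.natCast_eq_natCast_iff] at h3
      exact Nat.ModEq.eq_of_lt_of_lt h3 (by omega) (by omega)
  refine h1.trans ((Multiset.toFinset_card_le _).trans ((Polynomial.card_roots' _).trans ?_))
  refine (Polynomial.natDegree_sub_le _ _).trans (max_le ?_ ?_)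
  · exact (natDegree_pol P q).trans hq
  · exact (natDegree_pol P q').trans hq'

end

/-! ### The sets -/

/-- The set of a string. -/
def blkS (ls c : ℕ) (q : List Bool) : Finset (Fin (ls * (c + 1))) :=
  (univ : Finset (Fin ls)).image (fun a : Fin ls => ⟨(a : ℕ) * (c + 1) + ev c a q, by
    have h1 := ev_lt c a q
    have h2 : (a : ℕ) * (c + 1) + (c + 1) ≤ ls * (c + 1) := by
      rw [← Nat.succ_mul]
      exact Nat.mul_le_mul_right _ a.2
    omega⟩)

theorem inj_pos {c a a' h h' : ℕ} (hh : h < c + 1) (hh' : h' < c + 1)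
    (e : a * (c + 1) + h = a' * (c + 1) + h') : a = a' ∧ h = h' := by
  have h1 : (a * (c + 1) + h) / (c + 1) = (a' * (c + 1) + h') / (c + 1) := by rw [e]
  rw [mul_comm a, mul_comm a', Nat.mul_add_div (Nat.succ_pos c), Nat.mul_add_div (Nat.succ_pos c),
    Nat.div_eq_of_lt hh, Nat.div_eq_of_lt hh', add_zero, add_zero] at h1
  subst h1
  exact ⟨rfl, by omega⟩

theorem card_blkS (ls c : ℕ) (q : List Bool) : (blkS ls c q).card = ls := by
  unfold blkS
  rw [Finset.card_image_of_injective, Finset.card_univ, Fintype.card_fin]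
  intro a a' h
  rw [Fin.mk.injEq] at h
  exact Fin.ext (inj_pos (ev_lt c _ q) (ev_lt c _ q) h).1

theorem card_inter_blkS {ls D c : ℕ} (hP : (c + 1).Prime) (hls : ls ≤ c + 1) {q q' : List Bool}
    (hne : q ≠ q') (hq : q.length ≤ D) (hq' : q'.length ≤ D) :
    (blkS ls c q ∩ blkS ls c q').card ≤ D := by
  have : Fact (c + 1).Prime := ⟨hP⟩
  have h1 := few_common (c + 1) hls (c := c) rfl hne hq hq'
  refine le_trans ?_ h1
  apply Finset.card_le_card_of_injOn (fun j : Fin (ls * (c + 1)) => (j : ℕ) / (c + 1))
  · intro j hj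
    rw [Finset.mem_coe, Finset.mem_inter] at hj
    obtain ⟨hj1, hj2⟩ := hj
    unfold blkS at hj1 hj2
    obtain ⟨a, _, ha⟩ := Finset.mem_image.1 hj1
    obtain ⟨a', _, ha'⟩ := Finset.mem_image.1 hj2
    have e1 : (j : ℕ) = a * (c + 1) + ev c a q := by rw [← ha]
    have e2 : (j : ℕ) = a' * (c + 1) + ev c a' q' := by rw [← ha']
    obtain ⟨e3, e4⟩ := inj_pos (ev_lt c _ q) (ev_lt c _ q') (e1.symm.trans e2)
    have e5 : (j : ℕ) / (c + 1) = a := by
      rw [e1, mul_comm, Nat.mul_add_div (Nat.succ_pos c), Nat.div_eq_of_lt (ev_lt c _ q), add_zero]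
    simp only [Finset.coe_filter, Finset.mem_range, Set.mem_ofPred_eq, e5]
    refine ⟨a.2, ?_⟩
    rw [e4, e3]
  · intro j hj j' hj' h
    rw [Finset.mem_coe, Finset.mem_inter] at hj hj'
    have hj1 := hj.1
    have hj1' := hj'.1
    unfold blkS at hj1 hj1'
    obtain ⟨a, _, ha⟩ := Finset.mem_image.1 hj1
    obtain ⟨a', _, ha'⟩ := Finset.mem_image.1 hj1'
    have e1 : (j : ℕ) = a * (c + 1) + ev c a q := by rw [← ha]
    have e2 : (j' : ℕ) = a' * (c + 1) + ev c a' q := by rw [← ha']
    have e5 : (j : ℕ) / (c + 1) = a := by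
      rw [e1, mul_comm, Nat.mul_add_div (Nat.succ_pos c), Nat.div_eq_of_lt (ev_lt c _ q), add_zero]
    have e6 : (j' : ℕ) / (c + 1) = a' := by
      rw [e2, mul_comm, Nat.mul_add_div (Nat.succ_pos c), Nat.div_eq_of_lt (ev_lt c _ q), add_zero]
    simp only [e5, e6] at h
    apply Fin.ext
    rw [e1, e2, h]

/-! ### The oracle of the generator -/

/-- The answers of the generator, as a function of the seed and the question. -/
def gans (τ q : List Bool) : Bool :=
  (unbits (List Unit × ℕ × List Bool) τ).elim false (fun v =>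
    decide (((List.range v.1.length).filter
      (fun a => v.2.2.getD (a * (v.2.1 + 1) + ev v.2.1 a q) false)).length % 2 = 1))

theorem poly_evStep : Poly (fun p : (ℕ × ℕ × List Bool) × Bool × ℕ =>
    (p.2.1.toNat + p.1.2.1 * p.2.2) % (p.1.1 + 1)) := by
  have hb : Poly (fun p : (ℕ × ℕ × List Bool) × Bool × ℕ => p.2.1.toNat) := by
    have hb1 : Poly (fun p : (ℕ × ℕ × List Bool) × Bool × ℕ =>
        if p.2.1 = true then 1 else 0) :=
      Poly.ite (Poly.decide_eq (Poly.fst (Poly.snd Poly.id)) (NPC.Poly.const true))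
        (NPC.Poly.const 1) (NPC.Poly.const 0)
    exact hb1.congr fun p => by rcases p with ⟨_, b, _⟩; cases b <;> rfl
  have h1 : Poly (fun p : (ℕ × ℕ × List Bool) × Bool × ℕ => p.1.2.1) :=
    Poly.fst (Poly.snd (Poly.fst Poly.id))
  have h2 : Poly (fun p : (ℕ × ℕ × List Bool) × Bool × ℕ => p.2.2) :=
    Poly.snd (Poly.snd Poly.id)
  have h3 : Poly (fun p : (ℕ × ℕ × List Bool) × Bool × ℕ => p.1.1) :=
    Poly.fst (Poly.fst Poly.id)
  have h4 : Poly (fun p : (ℕ × ℕ × List Bool) × Bool × ℕ => p.1.2.1 * p.2.2) := Poly.mul h1 h2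
  have h5 : Poly (fun p : (ℕ × ℕ × List Bool) × Bool × ℕ => p.1.1 + 1) :=
    Poly.add h3 (NPC.Poly.const 1)
  exact Poly.mod (Poly.add hb h4) h5

theorem ev_bound (a c k : ℕ) (q : List Bool) :
    sz (((q ++ [true]).drop k).foldr (fun b s => (b.toNat + a * s) % (c + 1)) 0) ≤
      (Polynomial.C 4 * Polynomial.X + Polynomial.C 5).eval (sz (c, a, q)) := by
  have h1 : ((q ++ [true]).drop k).foldr (fun b s => (b.toNat + a * s) % (c + 1)) 0 ≤ c := by
    rcases (q ++ [true]).drop k with _ | ⟨b, l⟩
    · simp
    · exact Nat.lt_succ_iff.1 (Nat.mod_lt _ (Nat.succ_pos c))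
  generalize ((q ++ [true]).drop k).foldr (fun b s => (b.toNat + a * s) % (c + 1)) 0 = r at h1 ⊢
  have h2 := sz_nat_le r
  have h3 := Nat.size_le_size h1
  have h4 : Nat.size c ≤ sz c := by
    rw [sz_nat]
    have h5 := length_lt_sz c.bits
    rw [Nat.size_eq_bits_len] at h5
    omega
  have h6 : sz c ≤ sz (c, a, q) := by
    rw [sz_pair]
    omega
  simp only [Polynomial.eval_add, Polynomial.eval_mul, Polynomial.eval_C, Polynomial.eval_X]
  omega

theorem poly_ev' : Poly (fun w : ℕ × ℕ × List Bool => ev w.1 w.2.1 w.2.2) := by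
  unfold ev
  refine Poly.foldr (l := fun w : ℕ × ℕ × List Bool => w.2.2 ++ [true]) (s := fun _ => 0)
    (F := fun w b s => (b.toNat + w.2.1 * s) % (w.1 + 1))
    (Poly.append (Poly.snd (Poly.snd Poly.id)) (NPC.Poly.const _)) (NPC.Poly.const _) poly_evStep
    (Polynomial.C 4 * Polynomial.X + Polynomial.C 5) ?_
  rintro ⟨c, a, q⟩ k hk
  exact ev_bound a c k q

theorem poly_ev {α : Type} [TEnc α] {c a : α → ℕ} {q : α → List Bool} (hc : Poly c)
    (ha : Poly a) (hq : Poly q) : Poly (fun v => ev (c v) (a v) (q v)) :=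
  Poly.comp (g := fun w : ℕ × ℕ × List Bool => ev w.1 w.2.1 w.2.2)
    (f := fun v => (c v, a v, q v)) poly_ev' (Poly.pair hc (Poly.pair ha hq))

theorem poly_gans : Poly (fun p : List Bool × List Bool × Bool => gans p.1 p.2.1) := by
  unfold gans
  refine Poly.optElim (h := fun (p : List Bool × List Bool × Bool) (v : List Unit × ℕ × List Bool) =>
    decide (((List.range v.1.length).filter
      (fun a => v.2.2.getD (a * (v.2.1 + 1) + ev v.2.1 a p.2.1) false)).length % 2 = 1))
    (poly_unbits.comp (Poly.fst Poly.id)) (NPC.Poly.const _) ?_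
  refine Poly.decide_eq (Poly.mod (Poly.length (Poly.filter
    (p := fun (w : (List Bool × List Bool × Bool) × List Unit × ℕ × List Bool) (a : ℕ) =>
      w.2.2.2.getD (a * (w.2.2.1 + 1) + ev w.2.2.1 a w.1.2.1) false)
    (UPoly.range (UPoly.length (Poly.fst (Poly.snd Poly.id)))) ?_)) (NPC.Poly.const 2))
    (NPC.Poly.const 1)
  have hc : Poly (fun w : ((List Bool × List Bool × Bool) × List Unit × ℕ × List Bool) × ℕ =>
      w.1.2.2.1) := Poly.fst (Poly.snd (Poly.snd (Poly.fst Poly.id)))
  have hw : Poly (fun w : ((List Bool × List Bool × Bool) × List Unit × ℕ × List Bool) × ℕ =>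
      w.1.2.2.2) := Poly.snd (Poly.snd (Poly.snd (Poly.fst Poly.id)))
  have hq : Poly (fun w : ((List Bool × List Bool × Bool) × List Unit × ℕ × List Bool) × ℕ =>
      w.1.1.2.1) := Poly.fst (Poly.snd (Poly.fst (Poly.fst Poly.id)))
  have ha : Poly (fun w : ((List Bool × List Bool × Bool) × List Unit × ℕ × List Bool) × ℕ =>
      w.2) := Poly.snd Poly.id
  exact Poly.getD hw (Poly.add (Poly.mul ha (Poly.add hc (NPC.Poly.const 1)))
    (poly_ev hc ha hq)) (NPC.Poly.const _)

/-- The code of a seed. -/
def seedc (ls c : ℕ) (y : Fin (ls * (c + 1)) → Bool) : List Bool :=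
  bits ((List.replicate ls (), c, List.ofFn y) : List Unit × ℕ × List Bool)

theorem gans_seedc (ls c : ℕ) (y : Fin (ls * (c + 1)) → Bool) (q : List Bool) :
    gans (seedc ls c y) q = par (blkS ls c q) y := by
  unfold gans seedc
  rw [unbits_bits]
  simp only [Option.elim_some, List.length_replicate]
  unfold par
  rw [decide_eq_decide, Nat.odd_iff]
  have h1 : ((List.range ls).filter (fun a => (List.ofFn y).getD (a * (c + 1) + ev c a q)
      false)).length = ((blkS ls c q).filter (fun i => y i = true)).card := by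
    have h2 : ((List.range ls).filter (fun a => (List.ofFn y).getD (a * (c + 1) + ev c a q)
        false)).length = ((Finset.range ls).filter (fun a =>
        (List.ofFn y).getD (a * (c + 1) + ev c a q) false = true)).card := by
      rw [← List.countP_eq_length_filter]
      simp only [Finset.card_def, Finset.filter_val, Finset.range_val, Multiset.range]
      rw [Multiset.filter_coe, Multiset.coe_card, ← List.countP_eq_length_filter]
      simp
    rw [h2]
    unfold blkS
    rw [Finset.filter_image, Finset.card_image_of_injective]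
    · refine Finset.card_bij' (fun a ha => ⟨a, Finset.mem_range.1 (Finset.mem_filter.1 ha).1⟩)
        (fun a _ => (a : ℕ)) ?_ ?_ ?_ ?_
      · intro a ha
        have ha' := Finset.mem_filter.1 ha
        rw [Finset.mem_filter]
        refine ⟨Finset.mem_univ _, ?_⟩
        have h3 := ha'.2
        rw [List.getD_eq_getElem?_getD, List.getElem?_ofFn, dif_pos] at h3
        · simpa using h3
      · intro a ha
        have ha' := (Finset.mem_filter.1 ha).2
        rw [Finset.mem_filter, Finset.mem_range]
        refine ⟨a.2, ?_⟩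
        rw [List.getD_eq_getElem?_getD, List.getElem?_ofFn, dif_pos]
        · simpa using ha'
      · intro a ha
        rfl
      · intro a ha
        rfl
    · intro a a' h
      rw [Fin.mk.injEq] at h
      exact Fin.ext (inj_pos (ev_lt c _ q) (ev_lt c _ q) h).1
  rw [h1]

end Pool.Agent.Helper67.NW
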