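import Pool.Agent.Helper67.NW.GaugeP

/-! Oracles which contain the advice; unrelativized classes. -/

set_option autoImplicit false

namespace Pool.Agent.Helper67.NW

open Pool.Agent.NPC Pool.Agent.H622R2 Pool.Agent.H620R2.Gauge
open Pool.Agent.Helper67.PHP

/-- The empty oracle. -/
abbrev noOracle : Oracle := fun _ => false

/-! ### Unrelativized classes are contained in relativized classes -/

/-- no answer is positive -/
def R0 (_ _ : List Bool) (_ : Bool) : Bool := false

theorem ph_relativize {L : Set (List Bool)} (h : IsPH noOracle L) (S : Oracle) : IsPH S L := by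
  obtain ⟨V, p, k, ⟨M, hM⟩, hL⟩ := h
  have h1 := phPrecomp (ql_isPH M (R := R0) (NPC.Poly.const false) p k S) (poly_pairBits (NPC.Poly.const ([] : List Bool))
    Poly.id)
  convert h1 using 1
  ext x
  rw [hL]
  unfold QL
  simp only [Set.mem_ofPred_eq, unpair_pairBits]
  have e : (fun z => (M.out (pat R0 S []) z).getD []) = V := by
    funext z
    have := hM z
    show (M.out noOracle z).getD [] = V z
    rw [this]
    rfl
  rw [e]

theorem pspace_relativize {L : Set (List Bool)} (h : IsPSPACE noOracle L) (S : Oracle) :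
    IsPSPACE S L := by
  obtain ⟨M, p, hM⟩ := h
  have h1 : Poly (fun z : List Bool => (unpair z).1) := Poly.fst poly_unpair
  have h2 : Poly (fun z : List Bool => (unpair z).2) := Poly.snd poly_unpair
  have hN : Poly (fun z : List Bool => M.next (pairBits (unpair z).1
      (false :: (unpair z).2.tail))) :=
    (poly_of_polyTime M.next_poly).comp (poly_pairBits h1 (Poly.cons (NPC.Poly.const false)
      (Poly.tail h2)))
  let M' : SAlg := ⟨M.act, M.act_poly, _, polyTime_of_poly_list hN⟩
  have hnext : ∀ x b s, M'.next (pairBits x (b :: s)) = M.next (pairBits x (false :: s)) := by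
    intro x b s
    show M.next (pairBits (unpair (pairBits x (b :: s))).1
      (false :: (unpair (pairBits x (b :: s))).2.tail)) = _
    rw [unpair_pairBits]
    rfl
  refine ⟨M', p, fun x => ?_⟩
  have hr : ∀ s, M'.Reach S x s ↔ M.Reach noOracle x s := by
    intro s
    constructor
    · intro h
      induction h with
      | start => exact SAlg.Reach.start
      | @step s q _ h1 ih =>
        rw [hnext]
        exact SAlg.Reach.step ih h1
    · intro h
      induction h with
      | start => exact SAlg.Reach.start
      | @step s q _ h1 ih =>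
        have h2 := SAlg.Reach.step (M := M') (A := S) ih h1
        rw [hnext] at h2
        exact h2
  obtain ⟨h3, s, z, h4, h5, h6⟩ := hM x
  exact ⟨fun s hs => h3 s ((hr s).1 hs), s, z, (hr s).2 h4, h5, h6⟩

/-! ### Oracles which contain the advice -/

/-- The place of the bit number `i` of the advice for the length `n`. -/
def plc (n i : ℕ) : List Bool := List.replicate n true ++ false :: List.replicate i true

theorem plc_inj {n i n' i' : ℕ} (h : plc n i = plc n' i') : n = n' ∧ i = i' := by
  obtain ⟨h1, h2⟩ := CC.rep_inj _ _ _ _ h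
  refine ⟨h1, ?_⟩
  have := congrArg List.length h2
  simpa using this

theorem poly_plc {α : Type} [TEnc α] {x v : α → List Bool} (hx : Poly x) (hv : Poly v) :
    Poly (fun a => plc (x a).length (v a).length) := by
  have h1 : Poly (fun a => (x a).map (fun _ => true)) :=
    NPC.Poly.map (F := fun _ _ => true) hx (NPC.Poly.const _)
  have h2 : Poly (fun a => (v a).map (fun _ => true)) :=
    NPC.Poly.map (F := fun _ _ => true) hv (NPC.Poly.const _)
  refine (Poly.append h1 (Poly.cons (NPC.Poly.const false) h2)).congr fun a => ?_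
  unfold plc
  rw [List.map_const', List.map_const']

section

variable (q : Polynomial ℕ) (h : ℕ → List Bool)

/-- the places -/
def Plc : Set (List Bool) := {y | ∃ n i, i ≤ q.eval n ∧ y = plc n i}

open Classical in
/-- write the advice into the oracle -/
noncomputable def wr (B : Oracle) (y : List Bool) : Bool :=
  if hy : ∃ v : ℕ × ℕ, v.2 ≤ q.eval v.1 ∧ y = plc v.1 v.2 then
    (pad (q.eval hy.choose.1) (h hy.choose.1)).getD hy.choose.2 false else B y

theorem wr_plc (B : Oracle) {n i : ℕ} (hi : i ≤ q.eval n) :
    wr q h B (plc n i) = (pad (q.eval n) (h n)).getD i false := by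
  have hy : ∃ v : ℕ × ℕ, v.2 ≤ q.eval v.1 ∧ plc n i = plc v.1 v.2 := ⟨(n, i), hi, rfl⟩
  unfold wr
  rw [dif_pos hy]
  obtain ⟨h1, h2⟩ := plc_inj hy.choose_spec.2
  rw [← h1, ← h2]

theorem wr_not (B : Oracle) {y : List Bool} (hy : y ∉ Plc q) : wr q h B y = B y := by
  unfold wr
  rw [dif_neg]
  rintro ⟨v, h1, h2⟩
  exact hy ⟨v.1, v.2, h1, h2⟩

theorem isPH_wr {L L' : Set (List Bool)} (hL' : IsPH noOracle L')
    (hh : ∀ n, (h n).length ≤ q.eval n) (hx : ∀ x, x ∈ L ↔ pairBits x (h x.length) ∈ L')
    (B : Oracle) : IsPH (wr q h B) L := by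
  set S := wr q h B with hS
  have hx' : Poly (fun v : List Bool × List Bool × List Bool => v.2.2) :=
    Poly.snd (Poly.snd Poly.id)
  have hg' : Poly (fun v : List Bool × List Bool × List Bool => v.2.1) :=
    Poly.fst (Poly.snd Poly.id)
  have hv' : Poly (fun v : List Bool × List Bool × List Bool => v.1) := Poly.fst Poly.id
  have hq : ∀ {α : Type} [TEnc α] {x : α → List Bool}, Poly x →
      UPoly (fun a => q.eval (x a).length) := fun hx => UPoly.eval (UPoly.length hx) q
  have h1 := (PHt.ofPoly (A := S) (Poly.getD (poly_pad (hq hx') hg') (Poly.length hv')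
    (NPC.Poly.const false))).iff (PHt.orc (A := S) (poly_plc hx' hv'))
  have h2 := h1.all (b := fun v => q.eval v.2.length) (hq (Poly.snd Poly.id))
  have h3 := (PHt.of_isPH (ph_relativize hL' S)).pre (f := fun v : List Bool × List Bool =>
    pairBits v.2 v.1) (poly_pairBits (Poly.snd Poly.id) (Poly.fst Poly.id))
  have h4 := ((h2.and h3).ex (b := fun x => q.eval x.length) (hq Poly.id)).isPH
  convert h4 using 1
  ext x
  simp only [Set.mem_ofPred_eq]
  rw [hx]
  constructor
  · intro h5
    refine ⟨h x.length, hh _, fun v hv => ?_, h5⟩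
    rw [hS, wr_plc q h B hv]
  · rintro ⟨g, hg, h5, h6⟩
    have h7 : pad (q.eval x.length) g = pad (q.eval x.length) (h x.length) := by
      apply List.ext_getElem
      · rw [length_pad hg, length_pad (hh _)]
      · intro i h8 h9
        rw [length_pad hg] at h8
        have h10 := h5 (List.replicate i false) (by
          rw [List.length_replicate]
          omega)
        rw [List.length_replicate, hS, wr_plc q h B (by omega), List.getD_eq_getElem _ _ (by
          rw [length_pad hg]; exact h8), List.getD_eq_getElem _ _ h9] at h10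
        exact Bool.eq_iff_iff.2 h10
    rwa [pad_inj hg (hh _) h7] at h6

end

/-! ### The number of the places -/

theorem exists_pow_ge (G : Polynomial ℕ) : ∃ c j₀ : ℕ, ∀ j ≥ j₀, G.eval j ≤ j ^ c := by
  induction G using Polynomial.induction_on' with
  | add p q hp hq =>
    obtain ⟨c, j₀, h⟩ := hp
    obtain ⟨c', j₀', h'⟩ := hq
    refine ⟨max c c' + 1, max (max j₀ j₀') 2, fun j hj => ?_⟩
    have h1 := h j (by omega)
    have h2 := h' j (by omega)
    have h3 : j ^ c ≤ j ^ max c c' := Nat.pow_le_pow_right (by omega) (le_max_left _ _)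
    have h4 : j ^ c' ≤ j ^ max c c' := Nat.pow_le_pow_right (by omega) (le_max_right _ _)
    have h5 : 2 * j ^ max c c' ≤ j * j ^ max c c' := Nat.mul_le_mul_right _ (by omega)
    rw [Polynomial.eval_add, pow_succ, mul_comm _ j]
    omega
  | monomial k a =>
    refine ⟨k + 1, a, fun j hj => ?_⟩
    rw [Polynomial.eval_monomial, pow_succ, mul_comm]
    exact Nat.mul_le_mul_left _ hj

open Classical in
theorem few_places (q : Polynomial ℕ) (N : ℕ) :
    ((Finset.range N).filter (fun i => str i ∈ Plc q)).card ≤
      ((Polynomial.X + Polynomial.C 1) * (q + Polynomial.C 1)).eval (Nat.log 2 N) := by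
  have h1 : ∀ i ∈ (Finset.range N).filter (fun i => str i ∈ Plc q),
      ∃ v ∈ Finset.range (Nat.log 2 N + 1) ×ˢ Finset.range (q.eval (Nat.log 2 N) + 1),
        str i = plc v.1 v.2 := by
    intro i hi
    rw [Finset.mem_filter, Finset.mem_range] at hi
    obtain ⟨n, j, hj, he⟩ := hi.2
    have h2 : (str i).length ≤ Nat.log 2 N := by
      rw [length_str]
      exact Nat.log_mono_right (by omega)
    rw [he] at h2
    simp only [plc, List.length_append, List.length_replicate, List.length_cons] at h2
    have h3 : n ≤ Nat.log 2 N := by omega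
    refine ⟨(n, j), ?_, he⟩
    rw [Finset.mem_product, Finset.mem_range, Finset.mem_range]
    have h4 := eval_mono q h3
    constructor
    · show n < _
      omega
    · show j < _
      omega
  choose! v hv1 hv2 using h1
  have h2 : ((Finset.range N).filter (fun i => str i ∈ Plc q)).card ≤
      (Finset.range (Nat.log 2 N + 1) ×ˢ Finset.range (q.eval (Nat.log 2 N) + 1)).card := by
    apply Finset.card_le_card_of_injOn v
    · intro i hi
      exact hv1 i hi
    · intro i hi j hj hij
      apply str_injective
      rw [hv2 i hi, hv2 j hj, hij]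
  refine h2.trans (le_of_eq ?_)
  rw [Finset.card_product, Finset.card_range, Finset.card_range]
  simp

/-- A language in the hierarchy with advice has many helpful oracles. -/
theorem not_null_of_phpoly {L : Set (List Bool)} (hL : IsPHpoly noOracle L) :
    ∃ c : ℕ, ¬ Null (fun N => (Real.logb 2 N) ^ c) {S | IsPH S L} := by
  classical
  obtain ⟨L', h, q, hL', hh, hx⟩ := hL
  obtain ⟨c, j₀, hc⟩ := exists_pow_ge ((Polynomial.X + Polynomial.C 1) * (q + Polynomial.C 1))
  refine ⟨c, not_null_of_code _ (Plc q) (wr q h) (fun B y hy => wr_not q h B hy) ?_ _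
    (fun B => isPH_wr q h hL' hh hx B)⟩
  rw [Filter.eventually_atTop]
  refine ⟨2 ^ j₀, fun N hN => ?_⟩
  have hN0 : N ≠ 0 := by
    have : 0 < 2 ^ j₀ := by positivity
    omega
  have h1 : j₀ ≤ Nat.log 2 N := (Nat.le_log_iff_pow_le (by norm_num) hN0).2 hN
  have h2 := (few_places q N).trans (hc _ h1)
  have h3 : ((Nat.log 2 N : ℕ) : ℝ) ≤ Real.logb 2 N := by
    rw [Real.le_logb_iff_rpow_le (by norm_num) (by exact_mod_cast Nat.pos_of_ne_zero hN0),
      Real.rpow_natCast]
    exact_mod_cast Nat.pow_log_le_self 2 hN0
  calc (((Finset.range N).filter (fun i => str i ∈ Plc q)).card : ℝ) ≤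
      ((Nat.log 2 N ^ c : ℕ) : ℝ) := by exact_mod_cast h2
    _ = ((Nat.log 2 N : ℕ) : ℝ) ^ c := by push_cast; rfl
    _ ≤ (Real.logb 2 N) ^ c := pow_le_pow_left₀ (by positivity) h3 c

end Pool.Agent.Helper67.NW
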