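import Pool.Agent.Helper67.NW.Main
import Pool.Agent.H620R2.Gauge2.Null
import Pool.Agent.H620R2.Gauge.NonNull

/-! Small and large sets of oracles. -/

set_option autoImplicit false

namespace Pool.Agent.Helper67.NW

open Pool.Agent.NPC Pool.Agent.H622R2 Pool.Agent.H620R2.Gauge H568R2 Pool.Agent.H676
open Pool.Agent.Helper67.PHP MeasureTheory

/-! ### The languages with few helpful oracles -/

/-- The oracles for which the given algorithm decides `L`. -/
def Good (L : Set (List Bool)) (θ : Alg × Polynomial ℕ × ℕ) : Set Oracle :=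
  {S | ∃ V : List Bool → List Bool, (∀ x, θ.1.out S x = some (V x)) ∧
    ∀ x, x ∈ L ↔ Quant (θ.2.1.eval x.length) V θ.2.2 true x}

theorem exists_good {L : Set (List Bool)} {S : Oracle} (h : IsPH S L) : ∃ θ, S ∈ Good L θ := by
  obtain ⟨V, p, k, ⟨M, hM⟩, hL⟩ := h
  exact ⟨(M, p, k), V, hM, hL⟩

theorem null_good (A : Oracle) (L : Set (List Bool)) (hL : ¬ IsPHpoly A L) (f : ℕ → ℝ)
    (F : Polynomial ℕ) (hf : ∀ j : ℕ, f (2 ^ j) ≤ F.eval j) (θ : Alg × Polynomial ℕ × ℕ) :
    Null f (Good L θ) := by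
  classical
  intro δ hδ
  obtain ⟨M, p, k⟩ := θ
  obtain ⟨qb, hqb⟩ := Alg.out_local M
  obtain ⟨K, hK⟩ := exists_pow_lt_of_lt_one hδ (by norm_num : (1 / 2 : ℝ) < 1)
  have h1 : ∃ n, dens M p qb k L n < (1 / 2 : ℝ) ^
      (F.comp (QP p qb k + Polynomial.C 1) + Polynomial.C K).eval n := by
    by_contra hcon
    push Not at hcon
    exact hL (phpoly_of_dens A M p k L hqb _ hcon)
  obtain ⟨n, hn⟩ := h1
  refine cover_of_event (N := NN p qb k n) (fun a => rt (chr L) (strsOf n)
    (fun z => QF (p.eval n) (leafG M (fun a => orc (NN p qb k n) a)) k true z a) = true)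
    (Good L (M, p, k)) ?_ f δ ?_
  · rintro S ⟨V, hV, hx⟩
    rw [rt_iff]
    intro z hz
    have hzl : z.length = n := by
      obtain ⟨j, _, hj⟩ := Finset.mem_image.1 hz
      rw [← hj, length_bitsOf]
    have h2 : z ∈ L ↔ QF (p.eval n) (leafG M (fun a => orc (NN p qb k n) a)) k true z
        (pre (NN p qb k n) S) = true := by
      have h3 := hx z
      simp only [hzl] at h3
      rw [h3]
      apply quant_iff' ((lenP p k).eval n)
      · intro y hy
        obtain ⟨Q, _, hQ1, hQ2⟩ := hqb S y
        have h4 : M.out (orc (NN p qb k n) (pre (NN p qb k n) S)) y = M.out S y := by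
          apply hQ2
          intro q hq
          apply orc_pre
          have h5 := idx_lt q
          have h6 : q.length ≤ (QP p qb k).eval n := by
            have e : (QP p qb k).eval n = qb.eval ((lenP p k).eval n) := by
              simp [QP, Polynomial.eval_comp]
            rw [e]
            exact (hQ1 q hq).trans (eval_mono _ hy)
          have h7 : 2 ^ (q.length + 1) ≤ 2 ^ ((QP p qb k).eval n + 1) :=
            Nat.pow_le_pow_right (by norm_num) (by omega)
          unfold NN
          omega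
        unfold leafG
        rw [h4, hV y, decide_eq_true_eq, Option.some.injEq]
      · have e : (lenP p k).eval n = n + k * (2 * p.eval n + 1) := by
          simp [lenP]
        rw [e, hzl]
    rw [Bool.eq_iff_iff, ← h2]
    unfold chr
    rw [decide_eq_true_iff]
  · suffices e1 : dens M p qb k L n * 2 ^ f (NN p qb k n) ≤ δ by
      refine le_trans (le_of_eq ?_) e1
      congr 1
      unfold dens br
      congr 1
      funext a
      congr
    have e2 : f (NN p qb k n) ≤ ((F.comp (QP p qb k + Polynomial.C 1)).eval n : ℕ) := by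
      unfold NN
      refine (hf _).trans (le_of_eq ?_)
      rw [Polynomial.eval_comp]
      simp
    have e3 : (2 : ℝ) ^ f (NN p qb k n) ≤ 2 ^ ((F.comp (QP p qb k + Polynomial.C 1)).eval n) := by
      rw [← Real.rpow_natCast]
      exact Real.rpow_le_rpow_of_exponent_le (by norm_num) e2
    rw [Polynomial.eval_add, Polynomial.eval_C, pow_add] at hn
    have e4 : (0 : ℝ) < 2 ^ f (NN p qb k n) := Real.rpow_pos_of_pos (by norm_num) _
    calc dens M p qb k L n * 2 ^ f (NN p qb k n) ≤
        ((1 / 2 : ℝ) ^ (F.comp (QP p qb k + Polynomial.C 1)).eval n * (1 / 2) ^ K) *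
          2 ^ ((F.comp (QP p qb k + Polynomial.C 1)).eval n) :=
          mul_le_mul hn.le e3 e4.le (by positivity)
      _ = ((1 / 2 : ℝ) ^ (F.comp (QP p qb k + Polynomial.C 1)).eval n *
          2 ^ ((F.comp (QP p qb k + Polynomial.C 1)).eval n)) * (1 / 2) ^ K := by ring
      _ = (1 / 2) ^ K := by
          rw [← mul_pow]
          norm_num
      _ ≤ δ := hK.le

/-- A language outside the hierarchy with advice has few helpful oracles. -/
theorem null_of_not_phpoly (A : Oracle) (L : Set (List Bool)) (hL : ¬ IsPHpoly A L) (f : ℕ → ℝ)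
    (F : Polynomial ℕ) (hf : ∀ j : ℕ, f (2 ^ j) ≤ F.eval j) : Null f {S | IsPH S L} := by
  have : Countable (Polynomial ℕ) := CC.poly_countable
  refine (null_iUnion (Good L) (null_good A L hL f F hf)).mono ?_
  intro S hS
  obtain ⟨θ, hθ⟩ := exists_good hS
  exact Set.mem_iUnion.2 ⟨θ, hθ⟩

/-! ### Large sets of oracles -/

open Classical in
theorem not_null_of_code (f : ℕ → ℝ) (T : Set (List Bool)) (Φ : Oracle → Oracle)
    (hΦ : ∀ B, ∀ y ∉ T, Φ B y = B y)
    (hf : ∀ᶠ N : ℕ in Filter.atTop,
      (((Finset.range N).filter (fun i => str i ∈ T)).card : ℝ) ≤ f N) (O : Set Oracle)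
    (hO : ∀ B, Φ B ∈ O) : ¬ Null f O := by
  intro hnull
  obtain ⟨N₀, hN₀⟩ := Filter.eventually_atTop.1 hf
  -- the bound for the short sequences
  obtain ⟨δ, hδ, hδ1, hδ2⟩ : ∃ δ : ℝ, 0 < δ ∧ δ < 1 ∧
      ∀ N < N₀, δ < 2 ^ (f N - N) := by
    have h1 : ∀ M : ℕ, ∃ δ : ℝ, 0 < δ ∧ δ < 1 ∧ ∀ N < M, δ < 2 ^ (f N - N) := by
      intro M
      induction M with
      | zero => exact ⟨1 / 2, by norm_num, by norm_num, fun N hN => by omega⟩
      | succ M ih =>
        obtain ⟨δ, h1, h2, h3⟩ := ih
        have h4 : (0 : ℝ) < 2 ^ (f M - M) := Real.rpow_pos_of_pos (by norm_num) _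
        refine ⟨min δ (2 ^ (f M - M) / 2), lt_min h1 (by positivity),
          (min_le_left _ _).trans_lt h2, ?_⟩
        intro N hN
        rcases Nat.lt_succ_iff_lt_or_eq.1 hN with h | h
        · exact (min_le_left _ _).trans_lt (h3 N h)
        · subst h
          exact (min_le_right _ _).trans_lt (by linarith)
    exact h1 N₀
  obtain ⟨S, hS, hsum⟩ := hnull δ hδ
  have hm := mass Φ T hΦ S (fun B => hS (Φ B) (hO B))
  have hle : ∀ σ : S, ENNReal.ofReal
      (2 ^ ((((Finset.range σ.1.length).filter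
        (fun i => str i ∈ T)).card : ℝ) - (σ.1.length : ℝ))) ≤
      ENNReal.ofReal (2 ^ (f σ.1.length - σ.1.length)) := by
    intro σ
    have hlen : N₀ ≤ σ.1.length := by
      by_contra hlt
      push Not at hlt
      have h1 := hδ2 _ hlt
      have h2 : ENNReal.ofReal (2 ^ (f σ.1.length - σ.1.length)) ≤ ENNReal.ofReal δ :=
        (ENNReal.le_tsum σ).trans hsum
      have h3 := (ENNReal.ofReal_le_ofReal_iff hδ.le).1 h2
      linarith
    apply ENNReal.ofReal_le_ofReal
    apply Real.rpow_le_rpow_of_exponent_le (by norm_num)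
    have h3 := hN₀ _ hlen
    linarith
  have h1 : (1 : ENNReal) ≤ ENNReal.ofReal δ := hm.trans ((ENNReal.tsum_le_tsum hle).trans hsum)
  rw [← ENNReal.ofReal_one] at h1
  have h2 := (ENNReal.ofReal_le_ofReal_iff hδ.le).1 h1
  linarith

end Pool.Agent.Helper67.NW
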