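import Pool.Agent.Helper67.NW.Corr

/-! The generator of Nisan and Wigderson: the hybrid argument. -/

set_option autoImplicit false

namespace Pool.Agent.Helper67.NW

open Pool.Agent.NPC Finset H568R2 Pool.Agent.H676 Pool.Agent.H620R2.Gauge
open Pool.Agent.Helper67.PHP

section

variable {I J : Type*} [Fintype I] [DecidableEq I] [Fintype J] [DecidableEq J]

/-- Fixing the coordinates in `A`. -/
theorem Ex_ow (A : Finset J) (h : (J → Bool) → ℝ) :
    Ex unif (fun y₀ : J → Bool => Ex unif (fun z : J → Bool => h (ow A y₀ z))) = Ex unif h := by
  induction A using Finset.induction_on with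
  | empty =>
    have e : ∀ y₀ z : J → Bool, ow ∅ y₀ z = z := by
      intro y₀ z
      funext j
      simp [ow]
    simp only [e]
    exact Ex_const unif_sum _
  | insert j A hj ih =>
    rw [← ih]
    have h1 : ∀ (y₀ z : J → Bool) (b : Bool), ow (insert j A) (Function.update y₀ j b) z =
        Function.update (ow A y₀ z) j b := by
      intro y₀ z b
      funext l
      unfold ow
      by_cases hl : l = j
      · subst hl
        simp
      · simp [Function.update_of_ne hl, Finset.mem_insert, hl]
    have h2 : ∀ (y₀ z : J → Bool) (b : Bool), ow A y₀ (Function.update z j b) =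
        Function.update (ow A y₀ z) j b := by
      intro y₀ z b
      funext l
      unfold ow
      by_cases hl : l = j
      · subst hl
        simp [hj]
      · simp [Function.update_of_ne hl]
    rw [Ex_resample unif_sum _ j]
    congr 1
    funext y₀
    rw [Ex_resample unif_sum (fun z => h (ow A y₀ z)) j]
    simp only [h1, h2, Fintype.sum_bool]
    rw [Ex_add, Ex_smul, Ex_smul]

/-- The generator. -/
def gen (S : I → Finset J) (y : J → Bool) : I → Bool := fun i => par (S i) y

/-- The bits in `A` come from the generator, the others from `a`; the bit number `i` is `b`. -/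
def hyb (S : I → Finset J) (A : Finset I) (i : I) (a : I → Bool) (b : Bool) (y : J → Bool) :
    I → Bool := fun j => if j = i then b else if j ∈ A then par (S j) y else a j

/-- The hybrid argument. -/
theorem hybrid (S : I → Finset J) (F : (I → Bool) → ℝ) (δ : ℝ)
    (h : ∀ (i : I) (A : Finset I) (a : I → Bool) (b : Bool),
      |Ex unif (fun y : J → Bool => sgb (par (S i) y) * F (hyb S A i a b y))| ≤ δ) :
    |Ex unif (fun y : J → Bool => F (gen S y)) - Ex unif F| ≤ Fintype.card I * δ := by
  let H : Finset I → ℝ := fun A => Ex unif (fun a : I → Bool => Ex unif (fun y : J → Bool =>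
    F (fun j => if j ∈ A then par (S j) y else a j)))
  have h0 : H ∅ = Ex unif F := by
    show Ex unif (fun a : I → Bool => Ex unif (fun y : J → Bool =>
      F (fun j => if j ∈ (∅ : Finset I) then par (S j) y else a j))) = _
    congr 1
    funext a
    have e : ∀ y : J → Bool, (fun j => if j ∈ (∅ : Finset I) then par (S j) y else a j) = a := by
      intro y
      funext j
      simp
    simp only [e]
    exact Ex_const unif_sum _
  have h1 : H univ = Ex unif (fun y : J → Bool => F (gen S y)) := by
    show Ex unif (fun a : I → Bool => Ex unif (fun y : J → Bool =>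
      F (fun j => if j ∈ (univ : Finset I) then par (S j) y else a j))) = _
    have e : ∀ (a : I → Bool) (y : J → Bool),
        (fun j => if j ∈ (univ : Finset I) then par (S j) y else a j) = gen S y := by
      intro a y
      funext j
      simp [gen]
    simp only [e]
    exact Ex_const unif_sum _
  have step : ∀ (i : I) (A : Finset I), i ∉ A → |H (insert i A) - H A| ≤ δ := by
    intro i A hi
    have hA : H A = Ex unif (fun a : I → Bool => Ex unif (fun y : J → Bool =>
        (1 / 2 : ℝ) * F (hyb S A i a true y) + 1 / 2 * F (hyb S A i a false y))) := by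
      show Ex unif (fun a : I → Bool => Ex unif (fun y : J → Bool =>
        F (fun j => if j ∈ A then par (S j) y else a j))) = _
      rw [Ex_resample unif_sum _ i]
      congr 1
      funext a
      rw [Fintype.sum_bool, Ex_add, Ex_smul, Ex_smul]
      have e : ∀ (b : Bool) (y : J → Bool), (fun j => if j ∈ A then par (S j) y else
          Function.update a i b j) = hyb S A i a b y := by
        intro b y
        funext j
        unfold hyb
        by_cases hj : j = i
        · subst hj
          simp [hi]
        · simp [Function.update_of_ne hj, hj]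
      simp only [e]
      rfl
    have hA' : H (insert i A) = Ex unif (fun a : I → Bool => Ex unif (fun y : J → Bool =>
        F (hyb S A i a (par (S i) y) y))) := by
      show Ex unif (fun a : I → Bool => Ex unif (fun y : J → Bool =>
        F (fun j => if j ∈ insert i A then par (S j) y else a j))) = _
      congr 1
      funext a
      congr 1
      funext y
      congr 1
      funext j
      unfold hyb
      by_cases hj : j = i
      · subst hj
        simp
      · simp [Finset.mem_insert, hj]
    have hd : H A - H (insert i A) = Ex unif (fun a : I → Bool =>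
        1 / 2 * (Ex unif (fun y : J → Bool => sgb (par (S i) y) * F (hyb S A i a true y)) +
          -1 * Ex unif (fun y : J → Bool => sgb (par (S i) y) * F (hyb S A i a false y)))) := by
      have e1 : ∀ a : I → Bool, Ex unif (fun y : J → Bool => (1 / 2 : ℝ) * F (hyb S A i a true y) +
          1 / 2 * F (hyb S A i a false y)) =
          Ex unif (fun y : J → Bool => F (hyb S A i a (par (S i) y) y)) +
          1 / 2 * (Ex unif (fun y : J → Bool => sgb (par (S i) y) * F (hyb S A i a true y)) +
          -1 * Ex unif (fun y : J → Bool => sgb (par (S i) y) * F (hyb S A i a false y))) := by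
        intro a
        rw [← Ex_smul, ← Ex_add, ← Ex_smul, ← Ex_add]
        congr 1
        funext y
        cases par (S i) y <;> simp only [sgb] <;> norm_num <;> ring
      rw [hA, hA', funext e1, Ex_add]
      ring
    rw [abs_sub_comm, hd]
    refine (Ex_abs_le unif_nonneg _).trans ?_
    calc _ ≤ Ex unif (fun _ : I → Bool => δ) := by
          apply Ex_mono unif_nonneg
          intro a
          rw [abs_mul, abs_of_pos (by norm_num : (0 : ℝ) < 1 / 2)]
          have e1 := h i A a true
          have e2 := h i A a false
          have e3 := abs_add_le (Ex unif (fun y : J → Bool => sgb (par (S i) y) *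
            F (hyb S A i a true y))) (-1 * Ex unif (fun y : J → Bool => sgb (par (S i) y) *
            F (hyb S A i a false y)))
          rw [abs_mul, abs_neg, abs_one, one_mul] at e3
          linarith
      _ = δ := Ex_const unif_sum δ
  have key : ∀ A : Finset I, |H A - H ∅| ≤ A.card * δ := by
    intro A
    induction A using Finset.induction_on with
    | empty => simp
    | insert i A hi ih =>
      have e1 : H (insert i A) - H ∅ = (H (insert i A) - H A) + (H A - H ∅) := by ring
      rw [e1, Finset.card_insert_of_notMem hi]
      refine (abs_add_le _ _).trans ?_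
      have := step i A hi
      push_cast
      linarith
  have h2 := key univ
  rw [h1, h0, Finset.card_univ] at h2
  exact h2

/-! ### The generator fools bounded alternation -/

theorem par_ow {B S : Finset J} (y₀ z : J → Bool) : par S (ow (univ \ B) y₀ z) =
    (par (S ∩ B) z ^^ par (S \ B) y₀) := by
  have h : sgb (par S (ow (univ \ B) y₀ z)) = sgb (par (S ∩ B) z) * sgb (par (S \ B) y₀) := by
    rw [sgb_par, sgb_par, sgb_par, ← Finset.prod_inter_mul_prod_sdiff S B]
    congr 1
    · refine Finset.prod_congr rfl fun j hj => ?_
      rw [Finset.mem_inter] at hj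
      unfold ow
      simp [hj.2]
    · refine Finset.prod_congr rfl fun j hj => ?_
      rw [Finset.mem_sdiff] at hj
      unfold ow
      simp [hj.2]
  revert h
  cases par S (ow (univ \ B) y₀ z) <;> cases par (S ∩ B) z <;> cases par (S \ B) y₀ <;>
    simp [sgb] <;> norm_num

theorem dtr_par (S : Finset J) : DTr S.card (par S : (J → Bool) → Bool) := by
  apply DTr.of_junta
  refine ⟨S, le_rfl, fun x y h => ?_⟩
  unfold par
  congr 2
  congr 1
  apply Finset.filter_congr
  intro i hi
  rw [h i hi]

omit [Fintype I] [DecidableEq I] [Fintype J] [DecidableEq J] in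
theorem QF_comp (m : ℕ) (F : List Bool → (I → Bool) → Bool) (φ : (J → Bool) → (I → Bool)) :
    ∀ (k : ℕ) (b : Bool) (z : List Bool) (y : J → Bool),
      QF m F k b z (φ y) = QF m (fun z y => F z (φ y)) k b z y := by
  intro k
  induction k with
  | zero => intro b z y; cases b <;> rfl
  | succ k ih =>
    intro b z y
    cases b with
    | true =>
      simp only [QF]
      rw [decide_eq_decide]
      exact exists_congr fun w => and_congr_right fun _ => by rw [ih]
    | false =>
      simp only [QF]
      rw [decide_eq_decide]
      exact forall_congr' fun w => forall_congr' fun _ => by rw [ih]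

end

open Classical in
/-- The generator fools Boolean combinations of alternations over polynomial-time oracle
algorithms. -/
theorem fools {N : ℕ} {J : Type*} [Fintype J] [DecidableEq J] (S : Fin N → Finset J) (d : ℕ)
    (hSd : ∀ i j, i ≠ j → (S j ∩ S i).card ≤ d) (M : Alg) (m k ℓ t : ℕ) (ht : 1 ≤ t)
    (hMt : M.p.eval (ℓ + k * (2 * m + 1)) * d ≤ t)
    (Z : Finset (List Bool)) (hZ : ∀ z ∈ Z, z.length ≤ ℓ)
    (T : (List Bool → Bool) → Bool)
    (hT : ∀ u v : List Bool → Bool, (∀ z ∈ Z, u z = v z) → T u = T v)
    (hs : ∀ i, (Z.card * t + 1) * ((24 * t) ^ k * t) ≤ (S i).card) (e : ℕ)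
    (he1 : ℓ + k * (2 * m + 1) + 2 ≤ e) (he2 : Z.card * t + 1 ≤ 2 ^ e) :
    |Ex unif (fun y : J → Bool => br (fun a : Fin N → Bool =>
        T (fun z => QF m (leafG M (fun a => orc N a)) k true z a)) (gen S y)) -
      Ex unif (br (fun a : Fin N → Bool =>
        T (fun z => QF m (leafG M (fun a => orc N a)) k true z a)))| ≤
      N * (((k + 1) * 2 ^ e) * (1 / 2) ^ t) := by
  have h := hybrid S (br (fun a : Fin N → Bool =>
        T (fun z => QF m (leafG M (fun a => orc N a)) k true z a)))
        (((k + 1) * 2 ^ e) * (1 / 2) ^ t) ?_
  · rwa [Fintype.card_fin] at h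
  intro i A a b
  rw [← Ex_ow (univ \ S i)]
  refine (Ex_abs_le unif_nonneg _).trans ?_
  rw [← Ex_const (I := J) unif_sum (((k + 1) * 2 ^ e) * (1 / 2 : ℝ) ^ t)]
  apply Ex_mono unif_nonneg
  intro y₀
  -- the restricted oracle
  let Φ : (J → Bool) → Oracle := fun z => orc N (hyb S A i a b (ow (univ \ S i) y₀ z))
  have hΦ : ∀ q, DTr d (fun z => Φ z q) := by
    intro q
    show DTr d (fun z => orc N (hyb S A i a b (ow (univ \ S i) y₀ z)) q)
    unfold orc
    by_cases hq : idx q < N
    · simp only [hq, dif_pos]
      unfold hyb
      by_cases hqi : (⟨idx q, hq⟩ : Fin N) = i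
      · simp only [hqi, if_true]
        exact DTr.const ⟨b, fun _ => rfl⟩
      · simp only [hqi, if_false]
        by_cases hqA : (⟨idx q, hq⟩ : Fin N) ∈ A
        · simp only [hqA, if_true, par_ow]
          have h1 := (DTr.comp (fun c => c ^^ par (S ⟨idx q, hq⟩ \ S i) y₀)
            (dtr_par (S ⟨idx q, hq⟩ ∩ S i))).mono (hSd i ⟨idx q, hq⟩ (Ne.symm hqi))
          exact h1
        · simp only [hqA, if_false]
          exact DTr.const ⟨a ⟨idx q, hq⟩, fun _ => rfl⟩
    · simp only [hq, dif_neg, not_false_iff]
      exact DTr.const ⟨false, fun _ => rfl⟩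
  have h1 := corr_bound' ht m (leafG M Φ) k ℓ (fun y hy => (dtr_leafD M hΦ y).mono
    ((Nat.mul_le_mul_right d (eval_mono M.p hy)).trans hMt)) (S i) Z hZ T hT (hs i) e he1 he2
  have e1 : (fun z : J → Bool => sgb (par (S i) (ow (univ \ S i) y₀ z)) *
      br (fun a : Fin N → Bool => T (fun z => QF m (leafG M (fun a => orc N a)) k true z a))
        (hyb S A i a b (ow (univ \ S i) y₀ z))) =
      fun z => sgb (par (S i) z) * br (fun z => T (fun w => QF m (leafG M Φ) k true w z)) z := by
    funext z
    have e2 : par (S i) (ow (univ \ S i) y₀ z) = par (S i) z := by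
      rw [par_ow, Finset.inter_self, Finset.sdiff_self]
      simp [par]
    rw [e2]
    congr 1
    unfold br
    have e3 : ∀ w, QF m (leafG M (fun a => orc N a)) k true w
        (hyb S A i a b (ow (univ \ S i) y₀ z)) = QF m (leafG M Φ) k true w z := by
      intro w
      rw [QF_comp m (leafG M (fun a => orc N a))
        (fun z => hyb S A i a b (ow (univ \ S i) y₀ z))]
      rfl
    simp only [e3]
  rw [e1]
  exact h1

end Pool.Agent.Helper67.NW
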