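import Pool.Agent.Helper67.NW.Algo

/-! A language which is in the hierarchy relative to many oracles is in the hierarchy with
advice. -/

set_option autoImplicit false

namespace Pool.Agent.Helper67.NW

open Pool.Agent.NPC Pool.Agent.H622R2 Pool.Agent.H620R2.Gauge H568R2 Pool.Agent.H676
open Pool.Agent.Helper67.PHP

theorem two_sq_lt : ∀ E : ℕ, 10 ≤ E → 2 * (E * E) + 1 ≤ 2 ^ E := by
  intro E hE
  induction E, hE using Nat.le_induction with
  | base => norm_num
  | succ E hE ih =>
    rw [pow_succ]
    nlinarith

open Classical in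
/-- The characteristic function of a language. -/
noncomputable def chr (L : Set (List Bool)) (z : List Bool) : Bool := decide (z ∈ L)

section

variable (M : Alg) (p qb d : Polynomial ℕ) (k : ℕ)

/-- the length of the innermost strings -/
noncomputable def lenP : Polynomial ℕ := Polynomial.X + Polynomial.C k * (Polynomial.C 2 * p + Polynomial.C 1)
/-- the length of the questions -/
noncomputable def QP : Polynomial ℕ := qb.comp (lenP p k)
/-- the margin -/
noncomputable def WP : Polynomial ℕ :=
  M.p.comp (lenP p k) * (QP p qb k + Polynomial.C 1) + (QP p qb k + Polynomial.C 1) +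
    Polynomial.C (k + 1) + d + Polynomial.C 6
/-- the exponent -/
noncomputable def EP : Polynomial ℕ :=
  lenP p k + Polynomial.C 11 * d + WP M p qb d k + Polynomial.C 10
/-- the depth of the decision trees -/
noncomputable def TP : Polynomial ℕ := EP M p qb d k + WP M p qb d k
/-- the size of the blocks -/
noncomputable def LSP : Polynomial ℕ :=
  ((Polynomial.C 11 * d + Polynomial.C 1) * TP M p qb d k + Polynomial.C 1) *
    ((Polynomial.C 24 * TP M p qb d k) ^ k * TP M p qb d k)

/-- The number of bits of the oracle. -/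
noncomputable def NN (n : ℕ) : ℕ := 2 ^ ((QP p qb k).eval n + 1)

/-- the fraction of the oracles for which the answers on the inputs of length `n` are right -/
noncomputable def dens (L : Set (List Bool)) (n : ℕ) : ℝ :=
  Ex unif (br (fun a : Fin (NN p qb k n) → Bool => rt (chr L) (strsOf n)
    (fun z => QF (p.eval n) (leafG M (fun a => orc (NN p qb k n) a)) k true z a)))

end

/-- The oracle of the generator. -/
def RG (τ q : List Bool) (_ : Bool) : Bool := gans τ q

theorem poly_RG : Poly (fun p : List Bool × List Bool × Bool => RG p.1 p.2.1 p.2.2) := poly_gans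

theorem length_seedc (ls c : ℕ) (hc : c + 1 ≤ 2 * ls) (y : Fin (ls * (c + 1)) → Bool) :
    (seedc ls c y).length ≤ 8 * (ls * ls) + 10 * ls + 10 := by
  unfold seedc
  rw [bits_length, sz_pair, sz_pair]
  have h1 : sz (List.replicate ls ()) ≤ 2 * ls + 1 := by
    clear y hc
    induction ls with
    | zero => simp
    | succ ls ih =>
      rw [List.replicate_succ, sz_list_cons, sz_unit]
      omega
  have h2 := sz_nat_le c
  have h3 : Nat.size c ≤ c := by
    rw [Nat.size_le]
    exact Nat.lt_two_pow_self
  have h4 := sz_listBool_le (List.ofFn y)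
  rw [List.length_ofFn] at h4
  have h5 : ls * (c + 1) ≤ ls * (2 * ls) := Nat.mul_le_mul_left _ hc
  have h6 : ls * (2 * ls) = 2 * (ls * ls) := by ring
  omega

open Classical in
theorem phpoly_of_dens (A : Oracle) (M : Alg) (p : Polynomial ℕ) (k : ℕ) (L : Set (List Bool))
    {qb : Polynomial ℕ}
    (hqb : ∀ (A : Oracle) (x : List Bool), ∃ Q : Finset (List Bool), Q.card ≤ M.p.eval x.length ∧
      (∀ q ∈ Q, q.length ≤ qb.eval x.length) ∧
      ∀ A' : Oracle, (∀ q ∈ Q, A' q = A q) → M.out A' x = M.out A x)
    (d : Polynomial ℕ) (h : ∀ n, (1 / 2 : ℝ) ^ d.eval n ≤ dens M p qb k L n) :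
    IsPHpoly A L := by
  -- values of the parameters
  have eQ : ∀ n, (QP p qb k).eval n = qb.eval ((lenP p k).eval n) := by
    intro n
    simp [QP, Polynomial.eval_comp]
  have el : ∀ n, (lenP p k).eval n = n + k * (2 * p.eval n + 1) := by
    intro n
    simp [lenP]
  have eW : ∀ n, (WP M p qb d k).eval n = M.p.eval ((lenP p k).eval n) *
      ((QP p qb k).eval n + 1) + ((QP p qb k).eval n + 1) + (k + 1) + d.eval n + 6 := by
    intro n
    simp [WP, Polynomial.eval_comp]
  have eE : ∀ n, (EP M p qb d k).eval n = (lenP p k).eval n + 11 * d.eval n +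
      (WP M p qb d k).eval n + 10 := by
    intro n
    simp [EP]
  have eT : ∀ n, (TP M p qb d k).eval n = (EP M p qb d k).eval n + (WP M p qb d k).eval n := by
    intro n
    simp [TP]
  have eLS : ∀ n, (LSP M p qb d k).eval n = ((11 * d.eval n + 1) * (TP M p qb d k).eval n + 1) *
      ((24 * (TP M p qb d k).eval n) ^ k * (TP M p qb d k).eval n) := by
    intro n
    simp [LSP]
  have hT1 : ∀ n, 1 ≤ (TP M p qb d k).eval n := by
    intro n
    rw [eT, eE]
    omega
  have hLS1 : ∀ n, (LSP M p qb d k).eval n ≠ 0 := by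
    intro n
    rw [eLS]
    have := hT1 n
    positivity
  -- the primes
  have hprime : ∀ n, ∃ c, (c + 1).Prime ∧ (LSP M p qb d k).eval n ≤ c + 1 ∧
      c + 1 ≤ 2 * (LSP M p qb d k).eval n := by
    intro n
    obtain ⟨P, h1, h2, h3⟩ := Nat.exists_prime_lt_and_le_two_mul _ (hLS1 n)
    refine ⟨P - 1, ?_, ?_, ?_⟩
    · rwa [Nat.sub_add_cancel h1.one_lt.le]
    · rw [Nat.sub_add_cancel h1.one_lt.le]
      exact h2.le
    · rwa [Nat.sub_add_cancel h1.one_lt.le]
  choose c hc1 hc2 hc3 using hprime
  -- the seeds
  have hseeds : ∀ n, ∃ ω : Fin (2 * (n + 1)) →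
      (Fin ((LSP M p qb d k).eval n * (c n + 1)) → Bool), ∀ x ∈ strsOf n,
      (Finset.univ.filter (fun i => QF (p.eval n) (leafG M (fun a => orc (NN p qb k n) a)) k true x
        (gen (fun i : Fin (NN p qb k n) => blkS ((LSP M p qb d k).eval n) (c n) (str i)) (ω i)) ≠
        chr L x)).card < n + 1 := by
    intro n
    refine exists_seeds (fun i : Fin (NN p qb k n) => blkS ((LSP M p qb d k).eval n) (c n) (str i))
      ((QP p qb k).eval n + 1) ?_ M (p.eval n) k n ((TP M p qb d k).eval n) (hT1 n) ?_ (chr L)
      (d.eval n) (h n) ?_ ((EP M p qb d k).eval n) ?_ ?_ ?_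
    · intro i j hij
      apply card_inter_blkS (hc1 n) (hc2 n)
      · exact fun h => hij (Fin.ext (str_injective h).symm)
      · rw [length_str]
        have h1 : (j : ℕ) + 1 ≤ 2 ^ ((QP p qb k).eval n + 1) := j.2
        calc Nat.log 2 ((j : ℕ) + 1) ≤ Nat.log 2 (2 ^ ((QP p qb k).eval n + 1)) :=
              Nat.log_mono_right h1
          _ = _ := Nat.log_pow (by norm_num) _
      · rw [length_str]
        have h1 : (i : ℕ) + 1 ≤ 2 ^ ((QP p qb k).eval n + 1) := i.2
        calc Nat.log 2 ((i : ℕ) + 1) ≤ Nat.log 2 (2 ^ ((QP p qb k).eval n + 1)) :=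
              Nat.log_mono_right h1
          _ = _ := Nat.log_pow (by norm_num) _
    · rw [eT, eW, ← el]
      omega
    · intro i
      rw [card_blkS, eLS]
    · rw [eE, ← el]
      omega
    · refine le_trans ?_ (two_sq_lt ((EP M p qb d k).eval n) (by rw [eE]; omega))
      have h1 : 11 * d.eval n + 1 ≤ (EP M p qb d k).eval n := by
        rw [eE]
        omega
      have h2 : (TP M p qb d k).eval n ≤ 2 * (EP M p qb d k).eval n := by
        have h3 := eE n
        have h4 := eT n
        omega
      have h3 := Nat.mul_le_mul h1 h2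
      have h4 : (EP M p qb d k).eval n * (2 * (EP M p qb d k).eval n) =
          2 * ((EP M p qb d k).eval n * (EP M p qb d k).eval n) := by ring
      omega
    · have hk : ((k : ℝ) + 1) ≤ 2 ^ (k + 1) := by
        have : k + 1 ≤ 2 ^ (k + 1) := Nat.lt_two_pow_self.le
        exact_mod_cast this
      have hN : ((NN p qb k n : ℕ) : ℝ) = 2 ^ ((QP p qb k).eval n + 1) := by
        unfold NN
        push_cast
        rfl
      set W := (WP M p qb d k).eval n with hW
      set E := (EP M p qb d k).eval n with hE
      rw [hN, eT]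
      have h1 : (1 / 2 : ℝ) ^ (E + W) = (1 / 2) ^ E * (1 / 2) ^ W := pow_add _ _ _
      have h2 : (2 : ℝ) ^ E * (1 / 2) ^ E = 1 := by
        rw [← mul_pow]
        norm_num
      have h3 : (1 / 2 : ℝ) ^ W ≤ (1 / 2) ^ (((QP p qb k).eval n + 1) + (k + 1) +
          (d.eval n + 5)) := by
        apply pow_le_pow_of_le_one (by norm_num) (by norm_num)
        have := eW n
        omega
      have h4 : (1 / 2 : ℝ) ^ (((QP p qb k).eval n + 1) + (k + 1) + (d.eval n + 5)) =
          (1 / 2) ^ ((QP p qb k).eval n + 1) * (1 / 2) ^ (k + 1) * (1 / 2) ^ (d.eval n + 5) := by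
        rw [pow_add, pow_add]
      have h5 : (2 : ℝ) ^ ((QP p qb k).eval n + 1) * (1 / 2) ^ ((QP p qb k).eval n + 1) = 1 := by
        rw [← mul_pow]
        norm_num
      have h6 : (2 : ℝ) ^ (k + 1) * (1 / 2) ^ (k + 1) = 1 := by
        rw [← mul_pow]
        norm_num
      calc (2 : ℝ) ^ ((QP p qb k).eval n + 1) * ((((k : ℝ) + 1) * 2 ^ E) * (1 / 2) ^ (E + W)) =
          2 ^ ((QP p qb k).eval n + 1) * (((k : ℝ) + 1) * (1 / 2) ^ W) * (2 ^ E * (1 / 2) ^ E) := by
            rw [h1]
            ring
        _ = 2 ^ ((QP p qb k).eval n + 1) * (((k : ℝ) + 1) * (1 / 2) ^ W) := by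
            rw [h2, mul_one]
        _ ≤ 2 ^ ((QP p qb k).eval n + 1) * (2 ^ (k + 1) *
            ((1 / 2) ^ ((QP p qb k).eval n + 1) * (1 / 2) ^ (k + 1) *
              (1 / 2) ^ (d.eval n + 5))) := by
            apply mul_le_mul_of_nonneg_left _ (by positivity)
            exact mul_le_mul hk (h3.trans (le_of_eq h4)) (by positivity) (by positivity)
        _ = (2 ^ ((QP p qb k).eval n + 1) * (1 / 2) ^ ((QP p qb k).eval n + 1)) *
            (2 ^ (k + 1) * (1 / 2) ^ (k + 1)) * (1 / 2) ^ (d.eval n + 5) := by ring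
        _ = (1 / 2) ^ (d.eval n + 5) := by rw [h5, h6, one_mul, one_mul]
  choose ω hω using hseeds
  -- the advice
  refine phpoly_of_majority (ql_isPH M poly_RG p k A) L
    (fun n => List.ofFn (fun i => seedc ((LSP M p qb d k).eval n) (c n) (ω n i)))
    (Polynomial.C 8 * (LSP M p qb d k * LSP M p qb d k) + Polynomial.C 10 * LSP M p qb d k +
      Polynomial.C 10) (fun n => List.length_ofFn) ?_ ?_
  · intro n s hs
    rw [List.mem_ofFn] at hs
    obtain ⟨i, hi⟩ := hs
    rw [← hi]
    have h1 := length_seedc ((LSP M p qb d k).eval n) (c n) (hc3 n) (ω n i)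
    simp only [Polynomial.eval_add, Polynomial.eval_mul, Polynomial.eval_C]
    exact h1
  · intro x
    set n := x.length with hn
    refine lt_of_le_of_lt ?_ (hω n x (by rw [hn]; exact mem_strsOf x))
    apply Finset.card_le_card_of_injOn (fun i : ℕ => (⟨i % (2 * (n + 1)),
      Nat.mod_lt _ (by omega)⟩ : Fin (2 * (n + 1))))
    · intro i hi
      rw [Finset.mem_coe, Finset.mem_filter, Finset.mem_range] at hi
      rw [Finset.mem_coe, Finset.mem_filter]
      refine ⟨Finset.mem_univ _, ?_⟩
      intro hcon
      apply hi.2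
      have hi' : (⟨i % (2 * (n + 1)), Nat.mod_lt _ (by omega)⟩ : Fin (2 * (n + 1))) =
          ⟨i, hi.1⟩ := Fin.ext (Nat.mod_eq_of_lt hi.1)
      beta_reduce at hcon
      rw [hi'] at hcon
      rw [List.getD_eq_getElem?_getD, List.getElem?_ofFn, dif_pos hi.1, Option.getD_some]
      -- the answers agree
      have h1 : pairBits (seedc ((LSP M p qb d k).eval n) (c n) (ω n ⟨i, hi.1⟩)) x ∈
          QL M RG p k A ↔ QF (p.eval n) (leafG M (fun a => orc (NN p qb k n) a)) k true x
          (gen (fun i : Fin (NN p qb k n) => blkS ((LSP M p qb d k).eval n) (c n) (str i))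
            (ω n ⟨i, hi.1⟩)) = true := by
        unfold QL
        simp only [Set.mem_ofPred_eq, unpair_pairBits]
        apply quant_iff' ((lenP p k).eval n)
        · intro y hy
          obtain ⟨Q, _, hQ1, hQ2⟩ := hqb (pat RG A (seedc ((LSP M p qb d k).eval n) (c n)
            (ω n ⟨i, hi.1⟩))) y
          have h2 : M.out (orc (NN p qb k n) (gen (fun i : Fin (NN p qb k n) =>
              blkS ((LSP M p qb d k).eval n) (c n) (str i)) (ω n ⟨i, hi.1⟩))) y =
              M.out (pat RG A (seedc ((LSP M p qb d k).eval n) (c n) (ω n ⟨i, hi.1⟩))) y := by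
            apply hQ2
            intro q hq
            have h3 := hQ1 q hq
            have h4 : idx q < NN p qb k n := by
              have h5 := idx_lt q
              have h6 : q.length ≤ (QP p qb k).eval n := by
                rw [eQ]
                exact h3.trans (eval_mono _ hy)
              have h7 : 2 ^ (q.length + 1) ≤ 2 ^ ((QP p qb k).eval n + 1) :=
                Nat.pow_le_pow_right (by norm_num) (by omega)
              unfold NN
              omega
            unfold orc
            rw [dif_pos h4]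
            show par (blkS _ _ (str (idx q))) _ = gans (seedc _ _ _) q
            rw [gans_seedc, str_idx]
          show (M.out (pat RG A (seedc ((LSP M p qb d k).eval n) (c n) (ω n ⟨i, hi.1⟩))) y).getD []
            = [true] ↔ decide (M.out (orc (NN p qb k n) (gen _ _)) y = some [true]) = true
          rw [h2, decide_eq_true_iff]
          cases M.out (pat RG A (seedc ((LSP M p qb d k).eval n) (c n) (ω n ⟨i, hi.1⟩))) y <;>
            simp
        · rw [el]
      rw [h1, hcon]
      unfold chr
      rw [decide_eq_true_iff]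
    · intro i hi j hj hij
      rw [Finset.mem_coe, Finset.mem_filter, Finset.mem_range] at hi hj
      have h1 := congrArg Fin.val hij
      simp only at h1
      rwa [Nat.mod_eq_of_lt hi.1, Nat.mod_eq_of_lt hj.1] at h1

end Pool.Agent.Helper67.NW
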